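import Pool.Agent.XW.T3.Defs
import Pool.Agent.XV.T3.V4

/-!
# Project XW, T3: the sums of the characters over all vectors vanish, equidistribution, `2 ∈ N`
-/

set_option autoImplicit false

namespace Pool.Agent.XW

open Finset
open Pool.Agent.Z700 (V3 pr)
open Pool.Agent.NH1 (rd)
open Pool.Agent.XV (bl vec ph Ph QA pv cpg S_PHI Pq Tp IsPhi)
open Pool.Agent.XV.QA (nr tr sc cj)
open Pool.Agent.XV.V4X (jac_prod_right pr_squarefree pr_pos rd_bl sum_neg fin_nr count transport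
  nonres)

namespace V4E

theorem pq_erase {N : Finset ℕ} (hN : Pe N) : Pq (N.erase 2) := fun p hp => by
  have h := Finset.mem_erase.1 hp
  exact ⟨(hN p h.2).1, h.1, (hN p h.2).2.1, (hN p h.2).2.2⟩

theorem pe_eq {δ : ℤ} {N : Finset ℕ} (h2 : 2 ∈ N) : pe δ N = δ.natAbs * pr (N.erase 2) := by
  unfold pe Pool.Agent.Z700.pr
  rw [← Finset.mul_prod_erase N (md δ) h2]
  congr 1
  refine Finset.prod_congr rfl fun p hp => ?_
  unfold md
  rw [if_neg (Finset.mem_erase.1 hp).1]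

theorem ch_eq {δ : ℤ} {N : Finset ℕ} (h2 : 2 ∈ N) (hN : Pe N) (c : ℤ) :
    ch δ N c = c2 δ c * jacobiSym c (pr (N.erase 2)) := by
  unfold ch
  rw [← Finset.mul_prod_erase N (fun p => sy δ p c) h2,
    jac_prod_right fun p hp => (pq_erase hN p hp).1.ne_zero]
  congr 1
  refine Finset.prod_congr rfl fun p hp => ?_
  unfold sy
  rw [if_neg (Finset.mem_erase.1 hp).1]

theorem dt_cases {δ : ℤ} (hδ : Dt δ) : δ.natAbs = 4 ∨ δ.natAbs = 8 := by
  rcases hδ with rfl | rfl | rfl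
  · left; rfl
  · right; rfl
  · right; rfl

theorem pe_pos {δ : ℤ} (hδ : Dt δ) {N : Finset ℕ} (hN : Pe N) (h2 : 2 ∈ N) : 0 < pe δ N := by
  rw [pe_eq h2]
  have h := pr_pos (pq_erase hN)
  rcases dt_cases hδ with h4 | h4 <;> rw [h4] <;> omega

theorem dvd_pe {δ : ℤ} {N : Finset ℕ} (h2 : 2 ∈ N) {p : ℕ} (hp : p ∈ N.erase 2) :
    p ∣ pe δ N := by
  rw [pe_eq h2]
  exact (Finset.dvd_prod_of_mem (fun p => p) hp).mul_left _

theorem sq_dvd_bl {q p : ℕ} {v : V3} (h : ∀ i, (p : ℤ) ∣ v i) : ((p * p : ℕ) : ℤ) ∣ bl q v v := by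
  obtain ⟨a, ha⟩ := h 0
  obtain ⟨b, hb⟩ := h 1
  obtain ⟨c, hc⟩ := h 2
  by_cases h5 : q = 5
  · rw [Pool.Agent.XV.T3.bl5 h5, ha, hb, hc]
    exact ⟨3 * (a * a) + 7 * (b * b) + 7 * (c * c) - (a * b + b * a) + (a * c + c * a) +
      3 * (b * c + c * b), by push_cast; ring⟩
  · rw [Pool.Agent.XV.T3.bl3 h5, ha, hb, hc]
    exact ⟨3 * (a * a) + 4 * (b * b) + 4 * (c * c) + 2 * (b * c + c * b), by push_cast; ring⟩

theorem not_dvd {δ : ℤ} (hδ : Dt δ) {q : ℕ} {N : Finset ℕ} (hN : Pe N) (h2 : 2 ∈ N) {v : V3}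
    (hv : bl q v v = (pe δ N : ℤ)) {p : ℕ} (hp : p ∈ N.erase 2) : ¬ ∀ i, (p : ℤ) ∣ v i := by
  intro h
  have h3 := sq_dvd_bl (q := q) h
  rw [hv] at h3
  have h4 : p * p ∣ pe δ N := by exact_mod_cast h3
  rw [pe_eq h2] at h4
  have hpp := pq_erase hN p hp
  have hc : Nat.Coprime p 2 := (Nat.coprime_primes hpp.1 Nat.prime_two).2 hpp.2.1
  have hc2 : Nat.Coprime (p * p) δ.natAbs := by
    rcases dt_cases hδ with h4 | h4
    · rw [h4]
      exact Nat.Coprime.mul_left (hc.pow_right 2) (hc.pow_right 2)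
    · rw [h4]
      exact Nat.Coprime.mul_left (hc.pow_right 3) (hc.pow_right 3)
  have h5 := pr_squarefree (pq_erase hN) p (hc2.dvd_of_dvd_mul_left h4)
  exact hpp.1.one_lt.ne' (Nat.isUnit_iff.1 h5)

theorem rd_ne {δ : ℤ} (hδ : Dt δ) {q : ℕ} {N : Finset ℕ} (hN : Pe N) (h2 : 2 ∈ N) {v : V3}
    (hv : bl q v v = (pe δ N : ℤ)) {p : ℕ} (hp : p ∈ N.erase 2) :
    rd p v ≠ 0 ∧ bl q (rd p v) (rd p v) = 0 := by
  constructor
  · intro h
    refine not_dvd hδ hN h2 hv hp fun i => ?_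
    have h2 := congrFun h i
    unfold Pool.Agent.NH1.rd at h2
    exact (ZMod.intCast_zmod_eq_zero_iff_dvd _ _).1 h2
  · rw [rd_bl, hv]
    push_cast
    exact (ZMod.natCast_eq_zero_iff _ _).2 (dvd_pe h2 hp)

theorem ph_pm (h0 : S_PHI) {δ : ℤ} (hδ : Dt δ) {q : ℕ} (hq : q = 3 ∨ q = 5) {N : Finset ℕ}
    (hN : Pe N) (h2 : 2 ∈ N) {v : V3} (hv : bl q v v = (pe δ N : ℤ)) {p : ℕ} (hp : p ∈ N.erase 2) :
    ph q p (rd p v) = 1 ∨ ph q p (rd p v) = -1 := by
  have h1 := rd_ne hδ hN h2 hv hp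
  exact (Pool.Agent.XV.V4X.spec h0 hq (pq_erase hN) hp).pm _ h1.2 h1.1

theorem Ph_sq (h0 : S_PHI) {δ : ℤ} (hδ : Dt δ) {q : ℕ} (hq : q = 3 ∨ q = 5) {N : Finset ℕ}
    (hN : Pe N) (h2 : 2 ∈ N) {v : V3} (hv : bl q v v = (pe δ N : ℤ)) {P : Finset ℕ}
    (hP : P ⊆ N.erase 2) : Ph q P v * Ph q P v = 1 := by
  unfold Pool.Agent.XV.Ph
  rw [← Finset.prod_mul_distrib]
  refine Finset.prod_eq_one fun p hp => ?_
  rcases ph_pm h0 hδ hq hN h2 hv (hP hp) with h | h <;> rw [h] <;> norm_num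

theorem Pt_odd {δ : ℤ} {q : ℕ} {N P : Finset ℕ} (h : 2 ∉ P) (v : V3) :
    Pt δ q N P v = Ph q P v := by
  unfold Pt Pool.Agent.XV.Ph
  refine Finset.prod_congr rfl fun p hp => ?_
  have hp2 : p ≠ 2 := fun h' => h (h' ▸ hp)
  unfold gm
  rw [if_neg hp2]

theorem Pt_two (h0 : S_PHI) {δ : ℤ} (hδ : Dt δ) {q : ℕ} (hq : q = 3 ∨ q = 5) {N : Finset ℕ}
    (hN : Pe N) (h2 : 2 ∈ N) {v : V3} (hv : bl q v v = (pe δ N : ℤ)) {P : Finset ℕ}
    (hP : P ⊆ N) (h : 2 ∈ P) :
    Pt δ q N P v = om q (pe δ N) v * Ph q (N.erase 2 \ P.erase 2) v := by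
  have hP' : P.erase 2 ⊆ N.erase 2 := Finset.erase_subset_erase 2 hP
  have e1 : Pt δ q N P v = gm δ q N 2 v * Pt δ q N (P.erase 2) v := by
    unfold Pt
    rw [Finset.mul_prod_erase P (fun p => gm δ q N p v) h]
  have e2 : gm δ q N 2 v = om q (pe δ N) v * Ph q (N.erase 2) v := by
    unfold gm
    rw [if_pos rfl]
  have e3 : Ph q (N.erase 2) v = Ph q (N.erase 2 \ P.erase 2) v * Ph q (P.erase 2) v := by
    unfold Pool.Agent.XV.Ph
    rw [Finset.prod_sdiff hP']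
  rw [e1, e2, e3, Pt_odd (Finset.notMem_erase 2 P), mul_assoc, mul_assoc,
    Ph_sq h0 hδ hq hN h2 hv hP', mul_one]

/-! ### the prime -/

theorem exists_prime {N Q : Finset ℕ} (hN : Pq N) (hQ : Q ⊆ N) (hne : Q.Nonempty) (B a : ℕ)
    (ha : Nat.Coprime a 8) (ha8 : a < 8) : ∃ l : ℕ, l.Prime ∧ B < l ∧ jacobiSym l (pr Q) = -1 ∧
      jacobiSym l (pr N) = -1 ∧ l % 8 = a := by
  classical
  obtain ⟨p0, hp0⟩ := hne
  obtain ⟨a0, ha0⟩ := nonres (hN p0 (hQ hp0)).1 (hN p0 (hQ hp0)).2.1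
  set f : ℕ → ℕ := fun p => if p = p0 then a0 else 1 with hf
  have f0 : f p0 = a0 := by rw [hf]; simp
  have f2 : ∀ p, p ≠ p0 → f p = 1 := fun p h => by rw [hf]; simp [h]
  have hfc : ∀ p ∈ N, Nat.Coprime (f p) p := by
    intro p hp
    by_cases h : p = p0
    · subst h
      rw [f0]
      by_contra hc
      have : NeZero p := ⟨(hN p hp).1.ne_zero⟩
      have := (jacobiSym.eq_zero_iff_not_coprime (a := (a0 : ℤ)) (b := p)).2
        (by rwa [Int.gcd_natCast_natCast])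
      rw [this] at ha0
      norm_num at ha0
    · rw [f2 p h]
      exact Nat.coprime_one_left p
  obtain ⟨k, hk⟩ := Nat.chineseRemainderOfFinset f (fun p => p) N
    (fun i hi => (hN i hi).1.ne_zero) (fun i hi j hj hij =>
      (Nat.coprime_primes (hN i hi).1 (hN j hj).1).2 hij)
  have hc : Nat.Coprime k (pr N) := by
    refine Nat.Coprime.prod_right fun p hp => ?_
    have h1 := hk p hp
    have h2 := hfc p hp
    unfold Nat.Coprime at h2 ⊢
    rw [h1.gcd_eq, h2]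
  have h8 : Nat.Coprime 8 (pr N) := by
    refine Nat.Coprime.prod_right fun p hp => ?_
    exact ((Nat.coprime_primes Nat.prime_two (hN p hp).1).2 (hN p hp).2.1.symm).pow_left 3
  obtain ⟨k', hk1, hk2⟩ := Nat.chineseRemainder h8 a k
  have hc' : Nat.Coprime k' (8 * pr N) := by
    refine Nat.Coprime.mul_right ?_ ?_
    · unfold Nat.Coprime at ha ⊢
      rw [hk1.gcd_eq, ha]
    · unfold Nat.Coprime at hc ⊢
      rw [hk2.gcd_eq, hc]
  obtain ⟨l, hl, hlp, hlk⟩ := Nat.forall_exists_prime_gt_and_modEq B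
    (mul_ne_zero (by norm_num) (pr_pos hN).ne') hc'
  have hj : ∀ p ∈ N, jacobiSym l p = jacobiSym (f p) p := by
    intro p hp
    have h1 : l ≡ k' [MOD p] := hlk.of_dvd ((Finset.dvd_prod_of_mem (fun p => p) hp).mul_left _)
    have h2 : k' ≡ k [MOD p] := hk2.of_dvd (Finset.dvd_prod_of_mem (fun p => p) hp)
    have h3 := (h1.trans h2).trans (hk p hp)
    refine jacobiSym.mod_left' ?_
    exact_mod_cast h3
  have hD : ∀ D ⊆ N, p0 ∈ D → jacobiSym l (pr D) = -1 := by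
    intro D hD hp
    rw [jac_prod_right fun p hp => (hN p (hD hp)).1.ne_zero, Finset.prod_eq_single_of_mem p0 hp]
    · rw [hj p0 (hD hp), f0, ha0]
    · intro p hp hne
      rw [hj p (hD hp), f2 p hne]
      simp
  refine ⟨l, hlp, hl, hD Q hQ hp0, hD N subset_rfl (hQ hp0), ?_⟩
  have h1 : l ≡ k' [MOD 8] := hlk.of_dvd (Dvd.intro _ rfl)
  have h2 : l % 8 = a % 8 := h1.trans hk1
  rw [h2, Nat.mod_eq_of_lt ha8]

theorem odd_pr {N : Finset ℕ} (hN : Pq N) : Odd (pr N) := by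
  unfold Pool.Agent.Z700.pr
  refine Finset.prod_induction _ Odd (fun a b => Odd.mul) odd_one fun p hp => ?_
  exact (hN p hp).1.odd_of_ne_two (hN p hp).2.1

theorem mod_four {n : ℕ} (hn : Odd n) : (n % 4 = 1 ∧ jacobiSym (-1) n = 1) ∨
    (n % 4 = 3 ∧ jacobiSym (-1) n = -1) := by
  have h : n % 4 = 1 ∨ n % 4 = 3 := by
    have := Nat.odd_iff.1 hn
    omega
  rcases h with h | h
  · left
    exact ⟨h, by rw [jacobiSym.at_neg_one hn, ZMod.χ₄_nat_one_mod_four h]⟩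
  · right
    exact ⟨h, by rw [jacobiSym.at_neg_one hn, ZMod.χ₄_nat_three_mod_four h]⟩

theorem neg_pe {δ : ℤ} (hδ : Dt δ) {N : Finset ℕ} (hN : Pe N) (h2 : 2 ∈ N) (hs : sg δ N = -1)
    {l : ℕ} (hl : Odd l) (hj : jacobiSym l (pr (N.erase 2)) = -1)
    (hl8 : l % 8 = if δ = -8 then 5 else 3) : jacobiSym (-(pe δ N : ℤ)) l = 1 := by
  have hn := odd_pr (pq_erase hN)
  have hJ2 : l % 8 = 3 ∨ l % 8 = 5 → jacobiSym 2 l = -1 := by
    intro h
    rw [jacobiSym.at_two hl, ZMod.χ₈_nat_eq_if_mod_eight]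
    rcases h with h | h
    · rw [if_neg (by omega), if_neg (by omega)]
    · rw [if_neg (by omega), if_neg (by omega)]
  unfold sg at hs
  rw [ch_eq h2 hN] at hs
  rw [pe_eq h2]
  generalize pr (N.erase 2) = n at hn hj hs ⊢
  rcases hδ with rfl | rfl | rfl
  · have hc : c2 (-4) (-1) = -1 := by
      unfold c2
      rw [if_pos rfl]
      decide
    rw [if_neg (by norm_num)] at hl8
    rw [hc] at hs
    have hn1 : n % 4 = 1 := by
      rcases mod_four hn with h | h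
      · exact h.1
      · rw [h.2] at hs
        norm_num at hs
    have e : (-(((-4 : ℤ).natAbs * n : ℕ) : ℤ)) = (-1) * 2 * 2 * (n : ℤ) := by
      have : (-4 : ℤ).natAbs = 4 := rfl
      rw [this]
      push_cast
      ring
    rw [e, jacobiSym.mul_left, jacobiSym.mul_left, jacobiSym.mul_left, hJ2 (Or.inl hl8),
      jacobiSym.at_neg_one hl, ZMod.χ₄_nat_three_mod_four (by omega),
      jacobiSym.quadratic_reciprocity_one_mod_four hn1 hl, hj]
    norm_num
  · have hc : c2 8 (-1) = 1 := by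
      unfold c2
      rw [if_neg (by norm_num), if_pos rfl]
      decide
    rw [if_neg (by norm_num)] at hl8
    rw [hc] at hs
    have hn1 : n % 4 = 3 := by
      rcases mod_four hn with h | h
      · rw [h.2] at hs
        norm_num at hs
      · exact h.1
    have e : (-(((8 : ℤ).natAbs * n : ℕ) : ℤ)) = (-1) * 2 * 2 * 2 * (n : ℤ) := by
      have : (8 : ℤ).natAbs = 8 := rfl
      rw [this]
      push_cast
      ring
    rw [e, jacobiSym.mul_left, jacobiSym.mul_left, jacobiSym.mul_left, jacobiSym.mul_left,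
      hJ2 (Or.inl hl8), jacobiSym.at_neg_one hl, ZMod.χ₄_nat_three_mod_four (by omega),
      jacobiSym.quadratic_reciprocity_three_mod_four hn1 (by omega), hj]
    norm_num
  · have hc : c2 (-8) (-1) = -1 := by
      unfold c2
      rw [if_neg (by norm_num), if_neg (by norm_num)]
      decide
    rw [if_pos rfl] at hl8
    rw [hc] at hs
    have hn1 : n % 4 = 1 := by
      rcases mod_four hn with h | h
      · exact h.1
      · rw [h.2] at hs
        norm_num at hs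
    have e : (-(((-8 : ℤ).natAbs * n : ℕ) : ℤ)) = (-1) * 2 * 2 * 2 * (n : ℤ) := by
      have : (-8 : ℤ).natAbs = 8 := rfl
      rw [this]
      push_cast
      ring
    rw [e, jacobiSym.mul_left, jacobiSym.mul_left, jacobiSym.mul_left, jacobiSym.mul_left,
      hJ2 (Or.inr hl8), jacobiSym.at_neg_one hl, ZMod.χ₄_nat_one_mod_four (by omega),
      jacobiSym.quadratic_reciprocity_one_mod_four hn1 hl, hj]
    norm_num

theorem exists_root {n l : ℕ} (hl : l.Prime) (hln : ¬ l ∣ n) (hl2 : l ≠ 2)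
    (h1 : jacobiSym (-(n : ℤ)) l = 1) :
    ∃ r d' : ℤ, (n : ℤ) + r ^ 2 = l * d' ∧ IsCoprime (l : ℤ) d' := by
  have : Fact l.Prime := ⟨hl⟩
  rw [← jacobiSym.legendreSym.to_jacobiSym] at h1
  have hn0 : ((-(n : ℤ) : ℤ) : ZMod l) ≠ 0 := by
    intro h
    rw [ZMod.intCast_zmod_eq_zero_iff_dvd, dvd_neg] at h
    exact hln (by exact_mod_cast h)
  obtain ⟨y, hy⟩ := (legendreSym.eq_one_iff l hn0).1 h1
  have hroot : (l : ℤ) ∣ (y.val : ℤ) ^ 2 + n := by
    rw [← ZMod.intCast_zmod_eq_zero_iff_dvd]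
    push_cast at hy ⊢
    rw [ZMod.natCast_zmod_val, pow_two, ← hy]
    ring
  have hlZ : Prime (l : ℤ) := Nat.prime_iff_prime_int.1 hl
  have hr0 : ¬ (l : ℤ) ∣ (y.val : ℤ) := by
    intro h
    have h2 : (l : ℤ) ∣ (n : ℤ) := by
      have h3 : (l : ℤ) ∣ (y.val : ℤ) ^ 2 := dvd_pow h two_ne_zero
      exact (dvd_add_right h3).1 hroot
    exact hln (by exact_mod_cast h2)
  have hfin : ∀ r : ℤ, (l : ℤ) ∣ r ^ 2 + n → ¬ (l : ℤ) * l ∣ r ^ 2 + n →
      ∃ r d' : ℤ, (n : ℤ) + r ^ 2 = l * d' ∧ IsCoprime (l : ℤ) d' := by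
    intro r h2 h3
    obtain ⟨d', hd⟩ := h2
    refine ⟨r, d', by rw [add_comm, hd], ?_⟩
    rw [hlZ.coprime_iff_not_dvd]
    intro h4
    apply h3
    rw [hd]
    exact mul_dvd_mul_left _ h4
  by_cases hc : (l : ℤ) * l ∣ (y.val : ℤ) ^ 2 + n
  · refine hfin ((y.val : ℤ) + l) ?_ ?_
    · have e : ((y.val : ℤ) + l) ^ 2 + n = ((y.val : ℤ) ^ 2 + n) + l * (2 * y.val + l) := by ring
      rw [e]
      exact dvd_add hroot (Dvd.intro _ rfl)
    · intro h5
      have e : ((y.val : ℤ) + l) ^ 2 + n = ((y.val : ℤ) ^ 2 + n) + l * (2 * y.val + l) := by ring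
      rw [e] at h5
      have h6 := (dvd_add_right hc).1 h5
      have h7 := (mul_dvd_mul_iff_left hlZ.ne_zero).1 h6
      have h8 : (l : ℤ) ∣ 2 * (y.val : ℤ) := (dvd_add_left (dvd_refl _)).1 h7
      rcases hlZ.dvd_or_dvd h8 with h9 | h9
      · have h10 : l ∣ 2 := by exact_mod_cast h9
        exact hl2 ((Nat.prime_dvd_prime_iff_eq hl Nat.prime_two).1 h10)
      · exact hr0 h9
  · exact hfin _ hroot hc

/-! ### the sums -/

theorem core (h0 : S_PHI) (hx : Pool.Agent.XV.S_EX) (hu : Pool.Agent.XV.S_UN)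
    (hc : Pool.Agent.XV.S_CH) {δ : ℤ} (hδ : Dt δ) {q : ℕ} (hq : q = 3 ∨ q = 5) {N : Finset ℕ}
    (hN : Pe N) (h2 : 2 ∈ N) (hs : sg δ N = -1) {Q : Finset ℕ} (hQ : Q ⊆ N.erase 2)
    (hne : Q.Nonempty) (F : V3 → ℤ) (hF : ∀ (x : QA q ℤ) (v w : V3), ¬ (q : ℤ) ∣ nr x →
      x * pv q v = pv q w * x → F w = F v) :
    ∑ v ∈ vec q (pe δ N : ℤ), F v * Ph q Q v = 0 := by
  classical
  have hN' := pq_erase hN
  obtain ⟨l, hl, hlB, hlP, hlR, hl8⟩ := exists_prime hN' hQ hne (30 * pe δ N)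
    (if δ = -8 then 5 else 3) (by split_ifs <;> decide) (by split_ifs <;> norm_num)
  have hn0 := pe_pos hδ hN h2
  have hln : ¬ l ∣ pe δ N := fun h => by
    have := Nat.le_of_dvd hn0 h
    omega
  have hl2 : l ≠ 2 := by omega
  obtain ⟨r, d', hr, hcop⟩ := exists_root hl hln hl2
    (neg_pe hδ hN h2 hs (hl.odd_of_ne_two hl2) hlR hl8)
  have hlpos : (0 : ℤ) < l := by exact_mod_cast hl.pos
  have hql : ¬ (q : ℤ) ∣ (l : ℤ) := by
    intro h
    have h3 : q ∣ l := by exact_mod_cast h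
    have hqp : q.Prime := by rcases hq with rfl | rfl <;> norm_num
    have h4 := (Nat.prime_dvd_prime_iff_eq hqp hl).1 h3
    rcases hq with rfl | rfl <;> omega
  set E := (fin_nr q (l : ℤ)).toFinset with hEdef
  set U := (fin_nr q 1).toFinset with hUdef
  have hE : ∀ x, x ∈ E ↔ nr x = (l : ℤ) := fun x => by
    rw [hEdef, Set.Finite.mem_toFinset]
    rfl
  have hU : ∀ x, x ∈ U ↔ nr x = 1 := fun x => by
    rw [hUdef, Set.Finite.mem_toFinset]
    rfl
  have c1 := count hq hx hu hlpos hr hcop (fun v => F v * Ph q Q v) E U hE hU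
  have c2 := count hq hx hu (r := -r) hlpos (by rw [neg_sq, hr]) hcop
    (fun v => -(F v * Ph q Q v)) E U hE hU
  have c3 := transport hq (n := (pe δ N : ℤ)) (r := r) hlpos (fun v => F v * Ph q Q v)
    (fun v => -(F v * Ph q Q v)) E hE
    (by
      intro v hv x w ht
      have hvv := (Pool.Agent.XV.T3.vec_mem hq).1 hv
      have h6 : Ph q Q w = jacobiSym l (pr Q) * Ph q Q v := by
        rw [jac_prod_right fun p hp => (hN' p (hQ hp)).1.ne_zero]
        unfold Pool.Agent.XV.Ph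
        rw [← Finset.prod_mul_distrib]
        refine Finset.prod_congr rfl fun p hp => ?_
        have hpN := hN' p (hQ hp)
        have hpn : p ∣ pe δ N := dvd_pe h2 (hQ hp)
        have h7 := hc q hq p hpN.1 hpN.2.1 hpN.2.2.1 hpN.2.2.2 (ph q p)
          (Pool.Agent.XV.V4X.spec h0 hq hN' (hQ hp)) x v w (by
            rw [ht.norm]
            intro h8
            have h9 : p ∣ l := by exact_mod_cast h8
            have h10 := (Nat.prime_dvd_prime_iff_eq hpN.1 hl).1 h9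
            exact hln (h10 ▸ hpn)) (by rw [hvv]; exact_mod_cast hpn)
            (not_dvd hδ hN h2 hvv (hQ hp)) ht.comm
        rw [h7, ht.norm]
      have h7 : F w = F v := hF x v w (by rw [ht.norm]; exact hql) ht.comm
      rw [hlP] at h6
      rw [h6, h7]
      ring)
  rw [c1, c2, Finset.sum_neg_distrib] at c3
  have hU0 : (U.card : ℤ) ≠ 0 := by
    have : (1 : QA q ℤ) ∈ U := (hU 1).2 Pool.Agent.XV.QA.nr_one
    have h8 : 0 < U.card := Finset.card_pos.2 ⟨1, this⟩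
    exact_mod_cast h8.ne'
  have h9 : (U.card : ℤ) * (2 * ∑ v ∈ vec q (pe δ N : ℤ), F v * Ph q Q v) = 0 := by
    linear_combination c3
  have h10 := (mul_eq_zero.1 h9).resolve_left hU0
  linarith

theorem sg_eq {δ : ℤ} {q : ℕ} (hq : q = 3 ∨ q = 5) {N : Finset ℕ} (h5 : q = 5 → Jb δ N)
    (h3 : q = 3 → Jd δ N) : sg δ N = -1 := by
  rcases hq with rfl | rfl
  · exact (h3 rfl).1
  · exact (h5 rfl).1

end V4E

open V4E in
theorem t_V4e (h0 : S_PHI) (hx : Pool.Agent.XV.S_EX) (hu : Pool.Agent.XV.S_UN)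
    (hc : Pool.Agent.XV.S_CH) (ho : S_OMT) (hm : S_OMN) : S_V4e := by
  classical
  intro δ hδ q hq N hN h2 h5 h3 P hP hne
  have hs := sg_eq hq h5 h3
  by_cases h2P : 2 ∈ P
  · rw [Finset.sum_congr rfl fun v hv =>
      Pt_two h0 hδ hq hN h2 ((Pool.Agent.XV.T3.vec_mem hq).1 hv) hP h2P]
    rcases Finset.eq_empty_or_nonempty (N.erase 2 \ P.erase 2) with he | hne'
    · rw [he]
      have h6 : ∀ v : V3, om q (pe δ N) v * Ph q ∅ v = om q (pe δ N) v := by
        intro v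
        unfold Pool.Agent.XV.Ph
        rw [Finset.prod_empty, mul_one]
      rw [Finset.sum_congr rfl fun v _ => h6 v]
      have h := sum_neg hq (pe δ N : ℤ) (om q (pe δ N))
      rw [Finset.sum_congr rfl fun v hv => hm δ hδ q hq N hN h2 h5 h3 v hv,
        Finset.sum_neg_distrib] at h
      linarith
    · exact core h0 hx hu hc hδ hq hN h2 hs Finset.sdiff_subset hne' (om q (pe δ N))
        fun x v w hx hw => ho q hq (pe δ N) x v w hx hw
  · rw [Finset.sum_congr rfl fun v _ => Pt_odd h2P v]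
    have hP' : P ⊆ N.erase 2 := fun p hp => Finset.mem_erase.2 ⟨fun h => h2P (h ▸ hp), hP hp⟩
    have h := core h0 hx hu hc hδ hq hN h2 hs hP' hne (fun _ => 1) fun _ _ _ _ _ => rfl
    simpa using h

open V4E in
theorem t_EQUe (h0 : S_PHI) (h : S_V4e) (_hm : S_OMN) : S_EQUe := by
  classical
  intro δ hδ q hq N hN h2 h5 h3 γ hγ
  have hpm : ∀ v : V3, bl q v v = (pe δ N : ℤ) → ∀ p ∈ N, gm δ q N p v = 1 ∨ gm δ q N p v = -1 := by
    intro v hv p hp
    unfold gm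
    split_ifs with hp2
    · have e1 : Ph q (N.erase 2) v * Ph q (N.erase 2) v = 1 :=
        Ph_sq h0 hδ hq hN h2 hv subset_rfl
      have e2 : om q (pe δ N) v = 1 ∨ om q (pe δ N) v = -1 := by
        unfold om
        split_ifs
        · left; rfl
        · right; rfl
        · left; rfl
        · right; rfl
      rcases mul_self_eq_one_iff.1 e1 with e3 | e3 <;> rcases e2 with e2 | e2 <;>
        rw [e2, e3] <;> norm_num
    · exact ph_pm h0 hδ hq hN h2 hv (Finset.mem_erase.2 ⟨hp2, hp⟩)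
  have key : ∀ v ∈ vec q (pe δ N : ℤ), ∑ P ∈ N.powerset, (∏ p ∈ P, γ p) * Pt δ q N P v =
      if (∀ p ∈ N, gm δ q N p v = γ p) then (2 : ℤ) ^ N.card else 0 := by
    intro v hv
    rw [Pool.Agent.XV.T3.vec_mem hq] at hv
    have e1 : ∑ P ∈ N.powerset, (∏ p ∈ P, γ p) * Pt δ q N P v =
        ∏ p ∈ N, (1 + γ p * gm δ q N p v) := by
      rw [Finset.prod_one_add]
      refine Finset.sum_congr rfl fun P _ => ?_
      unfold Pt
      rw [Finset.prod_mul_distrib]
    rw [e1]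
    split_ifs with hc
    · rw [← Finset.prod_const]
      refine Finset.prod_congr rfl fun p hp => ?_
      rw [hc p hp]
      rcases hγ p hp with h | h <;> rw [h] <;> norm_num
    · push Not at hc
      obtain ⟨p, hp, hne⟩ := hc
      refine Finset.prod_eq_zero hp ?_
      rcases hγ p hp with h1 | h1 <;> rcases hpm v hv p hp with h2 | h2 <;>
        first | exact absurd (h2.trans h1.symm) hne | (rw [h1, h2]; norm_num)
  have e2 : ∑ v ∈ vec q (pe δ N : ℤ), ∑ P ∈ N.powerset, (∏ p ∈ P, γ p) * Pt δ q N P v =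
      ((vec q (pe δ N : ℤ)).card : ℤ) := by
    rw [Finset.sum_comm]
    rw [Finset.sum_eq_single ∅]
    · simp [Pt]
    · intro P hP hne
      rw [← Finset.mul_sum, h δ hδ q hq N hN h2 h5 h3 P (Finset.mem_powerset.1 hP)
        (Finset.nonempty_iff_ne_empty.2 hne), mul_zero]
    · intro hn
      exact absurd (Finset.mem_powerset.2 (Finset.empty_subset _)) hn
  rw [Finset.sum_congr rfl key, ← Finset.sum_filter, Finset.sum_const, nsmul_eq_mul] at e2
  have e4 : Nat.card {v : V3 // v ∈ vec q (pe δ N : ℤ) ∧ ∀ p ∈ N, gm δ q N p v = γ p} =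
      ((vec q (pe δ N : ℤ)).filter fun v => ∀ p ∈ N, gm δ q N p v = γ p).card := by
    refine Nat.subtype_card _ fun v => ?_
    rw [mem_filter]
  rw [e4]
  have e5 : (2 : ℤ) ^ N.card * (((vec q (pe δ N : ℤ)).filter fun v => ∀ p ∈ N,
      gm δ q N p v = γ p).card : ℤ) = ((vec q (pe δ N : ℤ)).card : ℤ) := by
    rw [← e2, mul_comm]
  exact_mod_cast e5

end Pool.Agent.XW
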