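import Pool.Agent.XW.T3.All
import Pool.Agent.XW.T3.V4
import Pool.Agent.XW.PC

/-!
# Project XW, T3: the statements `S_V4`, `S_V3`, `S_V5` (helper2)
-/

set_option autoImplicit false

namespace Pool.Agent.XW

theorem f_V4e : S_V4e := t_V4e XV.t_PHI XV.f_EX XV.f_UN XV.t_CH t_OMT t_OMN

theorem f_EQUe : S_EQUe := t_EQUe XV.t_PHI f_V4e t_OMN

theorem f_PCGe : S_PCGe := t_PCG4

/-- the sums over all vectors vanish -/
theorem f_V4 : S_V4 := V4_of f_V4e

/-- the number of vectors of the lattice `L 3` -/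
theorem f_V3 : S_V3 := V3_of' f_EQUe

/-- the number of vectors of the lattice `L 5` and the Rédei kernel -/
theorem f_V5 : S_V5 := V5_of' f_PCGe f_EQUe

end Pool.Agent.XW
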