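import Pool.Agent.XW.T3.Defs
import Pool.Agent.XW.Wt
import Pool.Agent.XV.T3.CH

/-!
# Project XW, T3: the change of the characters and the orientation
-/

set_option autoImplicit false

namespace Pool.Agent.XW.CHp

open Finset
open Pool.Agent.Z700 (V3 pr)
open Pool.Agent.NH1 (rd)
open Pool.Agent.XV (bl vec ph Ph QA pv cpg mm tt)
open Pool.Agent.XV.QA (nr tr sc cj)
open Pool.Agent.XW.Od

/-! ### the ring homomorphisms modulo `5` and modulo `3` -/

theorem pv5 (v : V3) : (pv 5 v).a = -(v 0 + v 1 + v 2) ∧ (pv 5 v).b = 2 * (v 0 + v 2) ∧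
    (pv 5 v).c = 2 * v 2 ∧ (pv 5 v).d = 2 * v 1 := by
  unfold pv
  rw [if_pos rfl]
  exact ⟨rfl, rfl, rfl, rfl⟩

theorem pv3 (v : V3) : (pv 3 v).a = -v 0 ∧ (pv 3 v).b = 2 * v 0 ∧
    (pv 3 v).c = 2 * v 1 ∧ (pv 3 v).d = 2 * v 2 := by
  unfold pv
  rw [if_neg (by norm_num)]
  exact ⟨rfl, rfl, rfl, rfl⟩

theorem mul5 (x y : QA 5 ℤ) :
    (x * y).a - 3 * (x * y).c - (x * y).d = (x.a - 3 * x.c - x.d) * (y.a - 3 * y.c - y.d) -
      (x.b + x.c - 2 * x.d) * (y.b + y.c - 2 * y.d) +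
      5 * (-(2 * (x.c * y.c)) - 2 * (x.c * y.d) - x.d * y.b - x.d * y.c) ∧
    (x * y).b + (x * y).c - 2 * (x * y).d = (x.a - 3 * x.c - x.d) * (y.b + y.c - 2 * y.d) +
      (x.b + x.c - 2 * x.d) * (y.a - 3 * y.c - y.d) +
      (x.b + x.c - 2 * x.d) * (y.b + y.c - 2 * y.d) +
      5 * (x.c * y.b + x.c * y.c + x.d * y.b - x.d * y.c - 2 * (x.d * y.d)) := by
  have ht : (tt 5 : ℤ) = 1 := rfl
  have hm : (mm 5 : ℤ) = 2 := rfl
  rw [QA.mul_a, QA.mul_b, QA.mul_c, QA.mul_d, ht, hm]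
  push_cast
  constructor <;> ring

theorem nr5 (x : QA 5 ℤ) : nr x = (x.a - 3 * x.c - x.d) * (x.a - 3 * x.c - x.d) +
    (x.a - 3 * x.c - x.d) * (x.b + x.c - 2 * x.d) + (x.b + x.c - 2 * x.d) * (x.b + x.c - 2 * x.d) +
    5 * (x.a * x.c + x.a * x.d + x.b * x.d - x.c * x.c - x.c * x.d - x.d * x.d) := by
  have ht : (tt 5 : ℤ) = 1 := rfl
  have hm : (mm 5 : ℤ) = 2 := rfl
  unfold QA.nr
  rw [ht, hm]
  push_cast
  ring

theorem mul3 (x y : QA 3 ℤ) :
    (x * y).a - (x * y).b = (x.a - x.b) * (y.a - y.b) - (x.c - x.d) * (y.c - y.d) +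
      3 * (-(x.b * y.b) - x.c * y.d) ∧
    (x * y).c - (x * y).d = (x.a - x.b) * (y.c - y.d) + (x.c - x.d) * (y.a - y.b) +
      3 * (-(x.b * y.d) + x.c * y.b) := by
  have ht : (tt 3 : ℤ) = 0 := rfl
  have hm : (mm 3 : ℤ) = 1 := rfl
  rw [QA.mul_a, QA.mul_b, QA.mul_c, QA.mul_d, ht, hm]
  push_cast
  constructor <;> ring

theorem nr3 (x : QA 3 ℤ) : nr x = (x.a - x.b) * (x.a - x.b) + (x.c - x.d) * (x.c - x.d) +
    3 * (x.a * x.b + x.c * x.d) := by
  have ht : (tt 3 : ℤ) = 0 := rfl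
  have hm : (mm 3 : ℤ) = 1 := rfl
  unfold QA.nr
  rw [ht, hm]
  push_cast
  ring

theorem el5 (v : V3) : el 5 v = v 0 + 3 * v 1 + 2 * v 2 := by unfold el; rw [if_pos rfl]

theorem el3 (v : V3) : el 3 v = v 1 - v 2 := by unfold el; rw [if_neg (by norm_num)]

theorem f5 : ∀ U W e f : ZMod 5, -(U * e) - W * (2 * e) = -(f * U) - (2 * f) * W →
    U * (2 * e) - W * e + W * (2 * e) = -(f * W) + (2 * f) * U + (2 * f) * W →
    U * U + U * W + W * W ≠ 0 → f = e := by decide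

theorem f3 : ∀ U W e f : ZMod 3, -(W * (2 * e)) = -((2 * f) * W) →
    U * (2 * e) = (2 * f) * U → U * U + W * W ≠ 0 → f = e := by decide

theorem cast5 {a b : ℤ} (h : (5 : ℤ) ∣ a - b) : (a : ZMod 5) = (b : ZMod 5) := by
  have := (ZMod.intCast_zmod_eq_zero_iff_dvd (a - b) 5).2 (by exact_mod_cast h)
  push_cast at this
  exact sub_eq_zero.1 this

theorem cast3 {a b : ℤ} (h : (3 : ℤ) ∣ a - b) : (a : ZMod 3) = (b : ZMod 3) := by
  have := (ZMod.intCast_zmod_eq_zero_iff_dvd (a - b) 3).2 (by exact_mod_cast h)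
  push_cast at this
  exact sub_eq_zero.1 this

/-- the orientations agree modulo `q` -/
theorem el_congr {q : ℕ} (hq : q = 3 ∨ q = 5) {x : QA q ℤ} {v w : V3} (hx : ¬ (q : ℤ) ∣ nr x)
    (hc : x * pv q v = pv q w * x) : (q : ℤ) ∣ el q w - el q v := by
  rcases hq with rfl | rfl
  · have n := nr3 x
    obtain ⟨m1, m2⟩ := mul3 x (pv 3 v)
    obtain ⟨m3, m4⟩ := mul3 (pv 3 w) x
    obtain ⟨a1, a2, a3, a4⟩ := pv3 v
    obtain ⟨b1, b2, b3, b4⟩ := pv3 w
    rw [hc] at m1 m2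
    have e1 := m1.symm.trans m3
    have e2 := m2.symm.trans m4
    rw [a1, a2, a3, a4, b1, b2, b3, b4] at e1 e2
    have E1 := congrArg (fun z : ℤ => (z : ZMod 3)) e1
    have E2 := congrArg (fun z : ℤ => (z : ZMod 3)) e2
    push_cast at E1 E2
    have hn : ((x.a - x.b : ℤ) : ZMod 3) * ((x.a - x.b : ℤ) : ZMod 3) +
        ((x.c - x.d : ℤ) : ZMod 3) * ((x.c - x.d : ℤ) : ZMod 3) ≠ 0 := by
      intro h
      apply hx
      have h2 := congrArg (fun z : ℤ => (z : ZMod 3)) n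
      push_cast at h2 h
      rw [h, show (3 : ZMod 3) = 0 from rfl, zero_mul, add_zero] at h2
      exact (ZMod.intCast_zmod_eq_zero_iff_dvd _ 3).1 h2
    have key := f3 ((x.a - x.b : ℤ) : ZMod 3) ((x.c - x.d : ℤ) : ZMod 3) (el 3 v : ℤ) (el 3 w : ℤ)
      (by rw [el3, el3]; push_cast
          linear_combination (norm := (ring_nf; reduce_mod_char)) E1)
      (by rw [el3, el3]; push_cast
          linear_combination (norm := (ring_nf; reduce_mod_char)) E2) hn
    rw [← ZMod.intCast_zmod_eq_zero_iff_dvd]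
    push_cast
    rw [key, sub_self]
  · have n := nr5 x
    obtain ⟨m1, m2⟩ := mul5 x (pv 5 v)
    obtain ⟨m3, m4⟩ := mul5 (pv 5 w) x
    obtain ⟨a1, a2, a3, a4⟩ := pv5 v
    obtain ⟨b1, b2, b3, b4⟩ := pv5 w
    rw [hc] at m1 m2
    have e1 := m1.symm.trans m3
    have e2 := m2.symm.trans m4
    rw [a1, a2, a3, a4, b1, b2, b3, b4] at e1 e2
    have E1 := congrArg (fun z : ℤ => (z : ZMod 5)) e1
    have E2 := congrArg (fun z : ℤ => (z : ZMod 5)) e2
    push_cast at E1 E2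
    have hn : ((x.a - 3 * x.c - x.d : ℤ) : ZMod 5) * ((x.a - 3 * x.c - x.d : ℤ) : ZMod 5) +
        ((x.a - 3 * x.c - x.d : ℤ) : ZMod 5) * ((x.b + x.c - 2 * x.d : ℤ) : ZMod 5) +
        ((x.b + x.c - 2 * x.d : ℤ) : ZMod 5) * ((x.b + x.c - 2 * x.d : ℤ) : ZMod 5) ≠ 0 := by
      intro h
      apply hx
      have h2 := congrArg (fun z : ℤ => (z : ZMod 5)) n
      push_cast at h2 h
      rw [h, show (5 : ZMod 5) = 0 from rfl, zero_mul, add_zero] at h2
      exact (ZMod.intCast_zmod_eq_zero_iff_dvd _ 5).1 h2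
    have key := f5 ((x.a - 3 * x.c - x.d : ℤ) : ZMod 5) ((x.b + x.c - 2 * x.d : ℤ) : ZMod 5)
      (el 5 v : ℤ) (el 5 w : ℤ)
      (by rw [el5, el5]; push_cast
          linear_combination (norm := (ring_nf; reduce_mod_char)) E1)
      (by rw [el5, el5]; push_cast
          linear_combination (norm := (ring_nf; reduce_mod_char)) E2) hn
    rw [← ZMod.intCast_zmod_eq_zero_iff_dvd]
    push_cast
    rw [key, sub_self]

theorem om_congr {q M : ℕ} {v w : V3} (h : (q : ℤ) ∣ el q w - el q v) : om q M w = om q M v := by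
  unfold om
  set c : ℤ := if q = 5 ∧ M % 5 = 2 then 2 else 1
  refine if_congr ?_ rfl rfl
  constructor
  · intro h1
    have := dvd_sub h1 h
    rwa [show el q w - c - (el q w - el q v) = el q v - c by ring] at this
  · intro h1
    have := dvd_add h1 h
    rwa [show el q v - c + (el q w - el q v) = el q w - c by ring] at this

theorem om_pm (q M : ℕ) (v : V3) : om q M v = 1 ∨ om q M v = -1 := by
  unfold om
  split_ifs <;> simp

theorem bl_neg (q : ℕ) (v w : V3) : bl q v (-w) = - bl q v w := by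
  unfold bl
  simp only [Pi.neg_apply]
  split_ifs <;> ring

/-- the product of the primes of a subset divides `pe` up to a coprime factor: the cofactor -/
theorem pr_cast (D : Finset ℕ) : ((∏ l ∈ D, l : ℕ) : ℤ) = (pr D : ℤ) := rfl

end Pool.Agent.XW.CHp

namespace Pool.Agent.XW

open Finset
open Pool.Agent.Z700 (V3 pr)
open Pool.Agent.NH1 (rd)
open Pool.Agent.XV (bl vec ph Ph QA pv cpg S_PHI ph_spec)
open Pool.Agent.XV.QA (nr tr sc cj nr_mul nr_sc sc_comm)
open Pool.Agent.XW.Od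

/-- the orientation is preserved by all transports of norm prime to `q` -/
theorem t_OMT : S_OMT := fun _ hq _ _ _ _ hx hc => CHp.om_congr (CHp.el_congr hq hx hc)

/-- the orientation of `- v` -/
theorem t_OMN : S_OMN := by
  intro δ hδ q hq N hN h2 hJ5 hJ3 v hv
  have hv' : bl q v v = (pe δ N : ℤ) := (Finset.mem_filter.1 hv).2
  have h1 : bl q v (-v) = (pe δ N : ℤ) - 2 * (pe δ N : ℕ) := by
    rw [CHp.bl_neg, hv']
    ring
  have h3 : bl q (-v) (-v) = (pe δ N : ℤ) := by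
    rw [CHp.bl_neg]
    rw [XV.Wt.bl_symm, CHp.bl_neg, neg_neg, hv']
  have h4 := Wt.om_om hq (fun h => (hJ5 h).2.2) (fun h => (hJ3 h).2.1) hv' h3 h1
  have h5 : ¬ q ∣ pe δ N := by
    rcases hq with rfl | rfl
    · have := (hJ3 rfl).2.1
      omega
    · have := (hJ5 rfl).2.2
      omega
  rw [if_neg h5] at h4
  rcases CHp.om_pm q (pe δ N) v with e | e <;> rw [e] at h4 ⊢ <;> linarith

/-- the change of the characters under the ambiguous ideals -/
theorem t_CHNe (h0 : S_PHI) (hd : Pool.Agent.XV.S_DV) (h : Pool.Agent.XV.S_CH) (ho : S_OMT) :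
    S_CHNe := by
  intro δ hδ q hq N hN h2N D hD x v w hv hx hc
  have hDN : Pe D := fun l hl => hN l (hD hl)
  constructor
  swap
  · refine ho q hq _ x v w ?_ hc
    rw [hx]
    intro hh
    have hqp : q.Prime := by rcases hq with rfl | rfl <;> norm_num
    have := XV.CHp.pr_mem (fun l hl => (hDN l hl).1) hqp hh
    obtain ⟨_, h3, h5⟩ := hDN q this
    omega
  intro p hp'
  have p2 : p ≠ 2 := ne_of_mem_erase hp'
  have hp : p ∈ N := mem_of_mem_erase hp'
  obtain ⟨hpp, p3, p5⟩ := hN p hp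
  have hpq : p ≠ q := by rcases hq with rfl | rfl <;> assumption
  have hf := ph_spec h0 hq hpp p2 hpq
  obtain ⟨d1, d2⟩ := Wt.pe_sq hδ hN hp p2
  have hpN : (p : ℤ) ∣ bl q v v := by rw [hv]; exact d1
  have hv0 : ¬ (∀ i, (p : ℤ) ∣ v i) := by
    intro hall
    have h1 := XV.CHp.bl_dvd (q := q) hall
    rw [hv] at h1
    exact d2 h1
  have hp0 : (p : ℤ) ≠ 0 := by exact_mod_cast hpp.ne_zero
  by_cases hpD : p ∈ D
  · obtain ⟨k, hk⟩ : p ∣ pe δ N := by exact_mod_cast d1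
    have e1 : pr D = p * pr (D.erase p) := pr_erase hpD
    have e1' : pr D / p = pr (D.erase p) := by
      rw [e1]
      exact Nat.mul_div_cancel_left _ hpp.pos
    have e2 : pe δ N / p = k := by
      rw [hk]
      exact Nat.mul_div_cancel_left _ hpp.pos
    have c15 : Nat.Coprime p 15 := by
      have a3 : Nat.Coprime p 3 := (Nat.coprime_primes hpp Nat.prime_three).2 p3
      have a5 : Nat.Coprime p 5 := (Nat.coprime_primes hpp Nat.prime_five).2 p5
      exact a3.mul_right a5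
    obtain ⟨y, hy⟩ := hd q hq p hpp.prime.squarefree c15 x (pv q v) (pv q w)
      (by rw [hx, e1]; push_cast; exact dvd_mul_right _ _) (by rw [XV.CHp.nr_pv, hv]; exact d1)
      (XV.CHp.tr_pv v) hc
    have hny : nr y = ((pr (D.erase p) * k : ℕ) : ℤ) := by
      have h1 := congrArg nr hy
      rw [nr_mul, nr_mul, nr_sc, XV.CHp.nr_pv, hv, hx, e1, hk] at h1
      push_cast at h1 ⊢
      apply mul_left_cancel₀ hp0
      apply mul_left_cancel₀ hp0
      linear_combination -h1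
    have hcy : y * pv q v = pv q w * y := by
      have h1 : sc (p : ℤ) * (y * pv q v) = sc (p : ℤ) * (pv q w * y) := by
        have e1 : sc (p : ℤ) * (y * pv q v) = x * pv q v * pv q v := by
          rw [← mul_assoc, ← hy]
        have e2 : sc (p : ℤ) * (pv q w * y) = pv q w * (x * pv q v) := by
          rw [hy, ← mul_assoc, sc_comm, mul_assoc]
        rw [e1, e2, hc, mul_assoc, hc]
      have ha := congrArg QA.a h1
      have hb := congrArg QA.b h1
      have hcc := congrArg QA.c h1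
      have hdd := congrArg QA.d h1
      have g : ∀ z : QA q ℤ, (sc (p : ℤ) * z).a = p * z.a ∧
          (sc (p : ℤ) * z).b = p * z.b ∧ (sc (p : ℤ) * z).c = p * z.c ∧
          (sc (p : ℤ) * z).d = p * z.d := by
        intro z
        refine ⟨?_, ?_, ?_, ?_⟩ <;> simp
      rw [(g _).1, (g _).1] at ha
      rw [(g _).2.1, (g _).2.1] at hb
      rw [(g _).2.2.1, (g _).2.2.1] at hcc
      rw [(g _).2.2.2, (g _).2.2.2] at hdd
      ext
      · exact mul_left_cancel₀ hp0 ha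
      · exact mul_left_cancel₀ hp0 hb
      · exact mul_left_cancel₀ hp0 hcc
      · exact mul_left_cancel₀ hp0 hdd
    have hndy : ¬ (p : ℤ) ∣ nr y := by
      rw [hny]
      intro hh
      have hh' : p ∣ pr (D.erase p) * k := by exact_mod_cast hh
      rcases (Nat.Prime.dvd_mul hpp).1 hh' with h3 | h3
      · exact not_dvd_pr (fun l hl => (hDN l (mem_of_mem_erase hl)).1) hpp (by simp) h3
      · apply d2
        obtain ⟨m, hm⟩ := h3
        refine ⟨m, ?_⟩
        rw [hk, hm]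
        push_cast
        ring
    have := h q hq p hpp p2 p3 p5 (ph q p) hf y v w hndy hpN hv0 hcy
    rw [this, hny]
    unfold gen
    rw [if_pos hpD, e2]
    have e3 : (∏ l ∈ D, l) / p = pr (D.erase p) := e1'
    rw [e3]
  · have hndx : ¬ (p : ℤ) ∣ nr x := by
      rw [hx]
      intro hh
      exact hpD (XV.CHp.pr_mem (fun l hl => (hDN l hl).1) hpp hh)
    have := h q hq p hpp p2 p3 p5 (ph q p) hf x v w hndx hpN hv0 hc
    rw [this, hx]
    unfold gen
    rw [if_neg hpD]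
    rfl

end Pool.Agent.XW
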