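import Pool.Agent.XW.T3.Defs
import Pool.Agent.XV.T3.Ex
import Pool.Agent.XV.T3.EU
import Pool.Agent.XV.T3.DV

/-!
# Project XW, T3: principal left ideals and divisibility, general form (helper2)
-/

set_option autoImplicit false

namespace Pool.Agent.XW

open Pool.Agent.XV (QA pv S_EU t_EU)
open Pool.Agent.XV.QA
open Pool.Agent.XV.T3

theorem t_EXG' (h : S_EU) : S_EXG := by
  intro q hq y d d' hd he hcop
  have hnn : nr (sc d : QA q ℤ) = ((d * d).toNat : ℕ) := by
    rw [nr_sc, Int.toNat_of_nonneg (mul_nonneg hd.le hd.le)]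
  obtain ⟨x, s, s', a', b', e1, e2, e3⟩ := bezout h hq _ y (sc d) hnn
  have hd0 : d ≠ 0 := hd.ne'
  have hx0 : x ≠ 0 := by
    rintro rfl
    rw [mul_zero] at e3
    have := congrArg QA.a e3
    exact hd0 this
  have hx := nr_pos hx0
  have n1 : nr x ∣ d * d' := by
    rw [← he, e2, nr_mul]
    exact Dvd.intro_left _ rfl
  have n2 : nr x ∣ d * d := by
    have : nr (sc d : QA q ℤ) = nr b' * nr x := by rw [← nr_mul, ← e3]
    rw [nr_sc] at this
    rw [this]
    exact Dvd.intro_left _ rfl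
  have n3 : nr x ∣ d := by
    obtain ⟨α, β, hαβ⟩ := hcop
    have : d = β * (d * d') + α * (d * d) := by
      calc d = d * (α * d + β * d') := by rw [hαβ, mul_one]
        _ = _ := by ring
    rw [this]
    exact dvd_add (Dvd.dvd.mul_left n1 _) (Dvd.dvd.mul_left n2 _)
  have n4 : d ∣ nr x := by
    have h1 : nr x = nr s * (d * d') + nr s' * (d * d) + d * tr (s * y * cj s') := by
      have h2 : s * y * cj (s' * sc d) = sc d * (s * y * cj s') := by
        rw [cj_mul, cj_sc, ← mul_assoc, ← sc_comm d (s * y), mul_assoc]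
      conv_lhs => rw [e1]
      rw [nr_add, nr_mul, he, nr_mul, nr_sc, h2, tr_sc_mul]
    rw [h1]
    exact dvd_add (dvd_add (Dvd.dvd.mul_left (Dvd.intro _ rfl) _)
      (Dvd.dvd.mul_left (Dvd.intro _ rfl) _)) (Dvd.intro _ rfl)
  have hnx : nr x = d := Int.dvd_antisymm hx.le hd.le n3 n4
  refine ⟨x, s, s', a', hnx, e1, e2, fun z hz => ⟨s * z * a' + s' * z * b', ?_⟩⟩
  calc x * z = (s * y + s' * sc d) * z := by rw [← e1]
    _ = s * (y * z) + s' * (sc d * z) := by noncomm_ring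
    _ = s * (z * (a' * x)) + s' * (z * (b' * x)) := by rw [hz, sc_comm, ← e2, ← e3]
    _ = _ := by noncomm_ring

/-- **EXG** -/
theorem t_EXG : S_EXG := t_EXG' t_EU

open Pool.Agent.XV.DV in
/-- **DVG** -/
theorem t_DVG : S_DVG := by
  intro q hq d hd hc x v w hx hv ht hxv
  have key : ∀ p : ℕ, p.Prime → p ∣ d → red q p (x * v) = 0 := by
    intro p hp hpd
    have : Fact p.Prime := ⟨hp⟩
    have hp15 : Nat.Coprime p 15 := Nat.Coprime.coprime_dvd_left hpd hc
    have hcop : ∀ k : ℕ, k ∣ 15 → ((k : ℕ) : ZMod p) ≠ 0 := by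
      intro k hk h
      rw [ZMod.natCast_eq_zero_iff] at h
      have h1 : p ∣ 1 := by
        rw [← hp15]
        exact Nat.dvd_gcd dvd_rfl (h.trans hk)
      exact hp.one_lt.ne' (Nat.dvd_one.1 h1)
    have h3 : ((3 : ℕ) : ZMod p) ≠ 0 := hcop 3 (by norm_num)
    have h5 : ((5 : ℕ) : ZMod p) ≠ 0 := hcop 5 (by norm_num)
    have hpz : (p : ℤ) ∣ d := Int.natCast_dvd_natCast.2 hpd
    rw [red_mul]
    refine main hq (by exact_mod_cast h3) (by exact_mod_cast h5) _ (red q p v) (red q p w) ?_ ?_ ?_ ?_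
    · rw [red_nr, ZMod.intCast_zmod_eq_zero_iff_dvd]
      exact hpz.trans hx
    · rw [red_nr, ZMod.intCast_zmod_eq_zero_iff_dvd]
      exact hpz.trans hv
    · rw [red_tr, ZMod.intCast_zmod_eq_zero_iff_dvd]
      exact hpz.trans ht
    · rw [← red_mul, ← red_mul, hxv]
  obtain ⟨a, ha⟩ := dvd_sq hd (x * v).a fun p hp hpd => (red_zero (key p hp hpd)).1
  obtain ⟨b, hb⟩ := dvd_sq hd (x * v).b fun p hp hpd => (red_zero (key p hp hpd)).2.1
  obtain ⟨c, hc'⟩ := dvd_sq hd (x * v).c fun p hp hpd => (red_zero (key p hp hpd)).2.2.1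
  obtain ⟨e, he⟩ := dvd_sq hd (x * v).d fun p hp hpd => (red_zero (key p hp hpd)).2.2.2
  refine ⟨⟨a, b, c, e⟩, ?_⟩
  ext
  · rw [ha]; simp
  · rw [hb]; simp
  · rw [hc']; simp
  · rw [he]; simp

end Pool.Agent.XW
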