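import Pool.Agent.XW.T3.Defs
import Pool.Agent.XW.PCStm

/-!
# Project XW, T3: the number of orthogonal pairs of vectors, even discriminants
-/

set_option autoImplicit false

namespace Pool.Agent.XW

open Finset
open Pool.Agent.Z700 (V3 pr hh)
open Pool.Agent.XV (cpg)

namespace H5x

theorem pr_sqf {N : Finset ℕ} (hN : Pe N) : Squarefree (pr N) := by
  unfold pr
  refine Finset.squarefree_prod_of_pairwise_isCoprime ?_ fun p hp => (hN p hp).1.squarefree
  intro p hp q hq hne
  exact Nat.coprime_iff_isRelPrime.1 ((Nat.coprime_primes (hN p hp).1 (hN q hq).1).2 hne)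

theorem pr_primeFactors {N : Finset ℕ} (hN : Pe N) : (pr N).primeFactors = N := by
  unfold pr
  exact Nat.primeFactors_prod fun p hp => (hN p hp).1

theorem dvd_pr {N : Finset ℕ} (hN : Pe N) {p : ℕ} (hp : p.Prime) : p ∣ pr N ↔ p ∈ N := by
  have h := Nat.mem_primeFactors_of_ne_zero (n := pr N) (p := p) (pr_sqf hN).ne_zero
  rw [pr_primeFactors hN] at h
  rw [h]
  exact (and_iff_right hp).symm

theorem pr_erase {N : Finset ℕ} {p : ℕ} (hp : p ∈ N) : pr N = p * pr (N.erase p) := by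
  unfold pr
  exact (Finset.mul_prod_erase N (fun x => x) hp).symm

theorem pe_erase {δ : ℤ} {N : Finset ℕ} {p : ℕ} (hp : p ∈ N) (h2 : p ≠ 2) :
    pe δ N = p * pe δ (N.erase p) := by
  unfold pe
  rw [← Finset.mul_prod_erase N (fun x => md δ x) hp]
  congr 1
  unfold md
  rw [if_neg h2]

theorem md_pos {δ : ℤ} (hδ : Dt δ) {p : ℕ} (hp : p.Prime) : md δ p ≠ 0 := by
  unfold md
  split_ifs with h
  · rcases hδ with rfl | rfl | rfl <;> decide
  · exact hp.ne_zero

theorem pe_ne {δ : ℤ} (hδ : Dt δ) {N : Finset ℕ} (hN : Pe N) : pe δ N ≠ 0 := by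
  unfold pe
  exact Finset.prod_ne_zero_iff.2 fun p hp => md_pos hδ (hN p hp).1

theorem dvd_md {δ : ℤ} (hδ : Dt δ) {p l : ℕ} (hp : p.Prime) (hl : l.Prime) (h : p ∣ md δ l) :
    p = l := by
  unfold md at h
  split_ifs at h with h2
  · have h3 : p ∣ 2 ^ 3 := by
      rcases hδ with rfl | rfl | rfl
      · exact h.trans (by decide)
      · exact h.trans (by decide)
      · exact h.trans (by decide)
    rw [h2]
    exact (Nat.prime_dvd_prime_iff_eq hp Nat.prime_two).1 (hp.dvd_of_dvd_pow h3)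
  · exact (Nat.prime_dvd_prime_iff_eq hp hl).1 h

theorem dvd_pe {δ : ℤ} (hδ : Dt δ) {N : Finset ℕ} (hN : Pe N) {p : ℕ} (hp : p.Prime) :
    p ∣ pe δ N ↔ p ∈ N := by
  constructor
  · intro h
    unfold pe at h
    rw [hp.prime.dvd_finsetProd_iff] at h
    obtain ⟨l, hl, h⟩ := h
    rw [dvd_md hδ hp (hN l hl).1 h]
    exact hl
  · intro h
    unfold pe
    refine dvd_trans ?_ (Finset.dvd_prod_of_mem (fun x => md δ x) h)
    unfold md
    split_ifs with h2
    · rw [h2]
      rcases hδ with rfl | rfl | rfl <;> decide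
    · exact dvd_refl _

theorem pe_primeFactors {δ : ℤ} (hδ : Dt δ) {N : Finset ℕ} (hN : Pe N) :
    (pe δ N).primeFactors = N := by
  ext p
  rw [Nat.mem_primeFactors]
  constructor
  · rintro ⟨h1, h2, -⟩
    exact (dvd_pe hδ hN h1).1 h2
  · intro h
    exact ⟨(hN p h).1, (dvd_pe hδ hN (hN p h).1).2 h, pe_ne hδ hN⟩

/-- the exponent -/
theorem fz {l c j : ℕ} (hl : l.Prime) (hc : ¬ l ∣ c) : (l ^ j * c).factorization l = j := by
  have hc0 : c ≠ 0 := by
    rintro rfl
    exact hc (dvd_zero l)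
  rw [Nat.factorization_mul (pow_ne_zero _ hl.ne_zero) hc0, Finsupp.add_apply,
    hl.factorization_pow, Nat.factorization_eq_zero_of_not_dvd hc, Finsupp.single_eq_same,
    Nat.add_zero]

theorem jsq {p : ℕ} (hp : p.Prime) {k : ℕ} (h : ¬ p ∣ k) : jacobiSym ((k : ℤ) ^ 2) p = 1 := by
  rw [jacobiSym.pow_left]
  refine jacobiSym.sq_one ?_
  rw [Int.gcd_natCast_natCast]
  exact ((Nat.Prime.coprime_iff_not_dvd hp).2 h).symm

theorem jm5 {p : ℕ} (hp : p.Prime) (h5 : p ≠ 5) {a : ℤ} (h : a = jacobiSym (-5) p) :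
    jacobiSym (-5) p * a = 1 := by
  rw [h, ← pow_two]
  refine jacobiSym.sq_one ?_
  have h3 : Nat.Coprime 5 p := (Nat.coprime_primes Nat.prime_five hp).2 (Ne.symm h5)
  rw [Int.gcd_eq_natAbs]
  simpa using h3

end H5x

open H5x in
theorem t_H5e4 (h : S_PCG4) : S_H5e := by
  intro δ hδ N hN h2N hK D hD hg
  have hPD : Pe D := fun p hp => hN p (hD hp)
  have hd := pr_sqf hPD
  have hn0 := pe_ne hδ hN
  have hd0 := hd.ne_zero
  have hp5 : Nat.Prime 5 := Nat.prime_five
  have h5N : ¬ 5 ∣ pe δ N := fun h5 => (hN 5 ((dvd_pe hδ hN hp5).1 h5)).2.2 rfl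
  have h5D : ¬ 5 ∣ pr D := fun h5 => (hPD 5 ((dvd_pr hPD hp5).1 h5)).2.2 rfl
  have h5DN : ¬ 5 ∣ pr D * pe δ N := by
    rw [hp5.dvd_mul]
    exact fun h => h.elim h5D h5N
  set D' : ℕ := 5 * (pr D * pe δ N) with hD'
  have hD0 : 0 < D' := Nat.pos_of_ne_zero (by positivity)
  have hf5 : D'.factorization 5 = 1 := by
    have := fz (j := 1) hp5 h5DN
    rwa [pow_one] at this
  have hpf : D'.primeFactors.erase 5 = N := by
    rw [hD', Nat.primeFactors_mul (by norm_num) (mul_ne_zero hd0 hn0),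
      Nat.primeFactors_mul hd0 hn0, pe_primeFactors hδ hN, pr_primeFactors hPD,
      hp5.primeFactors, Finset.union_eq_right.2 hD, Finset.singleton_union, Finset.erase_insert]
    exact fun h5 => (hN 5 h5).2.2 rfl
  have key := (h δ hδ N hN h2N (20 * (pr D : ℤ)) 0 D' hD0 ⟨5 * (pr D : ℤ), by ring⟩
    (by rw [hD']; push_cast; ring)).1 hK
  rw [hf5, if_pos odd_one, hpf] at key
  have hfc : ∀ l ∈ N, fc (pe δ N) D' l = 2 := by
    intro l hl
    obtain ⟨hlp, hl3, hl5⟩ := hN l hl
    have hln : l ∣ pe δ N := (dvd_pe hδ hN hlp).2 hl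
    unfold fc
    rw [if_pos hln]
    split_ifs with hl2
    · rfl
    have hl55 : ¬ l ∣ 5 := fun h5 => hl5 ((Nat.prime_dvd_prime_iff_eq hlp hp5).1 h5)
    have hPNl : Pe (N.erase l) := fun p hp => hN p (Finset.mem_of_mem_erase hp)
    have hlk : ¬ l ∣ pe δ (N.erase l) := fun h5 =>
      (Finset.notMem_erase l N) ((dvd_pe hδ hPNl hlp).1 h5)
    have hNe := pe_erase (δ := δ) hl hl2
    have hMl : pe δ N / l = pe δ (N.erase l) := by
      rw [hNe, Nat.mul_div_cancel_left _ hlp.pos]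
    have hgl := hg l (Finset.mem_erase.2 ⟨hl2, hl⟩)
    unfold gen at hgl
    rw [hMl] at hgl
    suffices hh (pe δ N) D' l = 1 by
      rw [this]
      norm_num
    by_cases hlD : l ∈ D
    · rw [if_pos hlD] at hgl
      have hPDl : Pe (D.erase l) := fun p hp => hPD p (Finset.mem_of_mem_erase hp)
      have hlk' : ¬ l ∣ pr (D.erase l) := fun h5 =>
        (Finset.notMem_erase l D) ((dvd_pr hPDl hlp).1 h5)
      have hDe := pr_erase hlD
      have hDl : (∏ l ∈ D, l) / l = pr (D.erase l) := by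
        change pr D / l = _
        rw [hDe, Nat.mul_div_cancel_left _ hlp.pos]
      rw [hDl] at hgl
      have e1 : D' = l ^ 2 * (5 * pr (D.erase l) * pe δ (N.erase l)) := by
        rw [hD', hNe, hDe]
        ring
      have hnd : ¬ l ∣ 5 * pr (D.erase l) * pe δ (N.erase l) := by
        rw [hlp.dvd_mul, hlp.dvd_mul]
        rintro ((h1 | h1) | h1)
        · exact hl55 h1
        · exact hlk' h1
        · exact hlk h1
      have e2 : D'.factorization l = 2 := by
        rw [e1]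
        exact fz hlp hnd
      unfold hh
      rw [e2, if_pos (by decide), e1, Nat.mul_div_cancel_left _ (pow_pos hlp.pos 2)]
      have e3 : (-((5 * pr (D.erase l) * pe δ (N.erase l) : ℕ) : ℤ)) =
          -5 * ((pr (D.erase l) * pe δ (N.erase l) : ℕ) : ℤ) := by
        push_cast
        ring
      rw [e3, jacobiSym.mul_left]
      exact jm5 hlp hl5 hgl
    · rw [if_neg hlD] at hgl
      have hgl' : jacobiSym ((pr D : ℕ) : ℤ) l = jacobiSym (-5) l := hgl
      have hlD' : ¬ l ∣ pr D := fun h5 => hlD ((dvd_pr hPD hlp).1 h5)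
      have e1 : D' = l ^ 1 * (5 * pr D * pe δ (N.erase l)) := by
        rw [hD', hNe]
        ring
      have hnd : ¬ l ∣ 5 * pr D * pe δ (N.erase l) := by
        rw [hlp.dvd_mul, hlp.dvd_mul]
        rintro ((h1 | h1) | h1)
        · exact hl55 h1
        · exact hlD' h1
        · exact hlk h1
      have e2 : D'.factorization l = 1 := by
        rw [e1]
        exact fz hlp hnd
      unfold hh
      rw [e2, if_neg (by decide), e1, Nat.mul_div_cancel_left _ (pow_pos hlp.pos 1), hMl]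
      have e3 : (-((pe δ (N.erase l) * (5 * pr D * pe δ (N.erase l)) : ℕ) : ℤ)) =
          (-5 * (pr D : ℤ)) * ((pe δ (N.erase l) : ℤ) ^ 2) := by
        push_cast
        ring
      rw [e3, jacobiSym.mul_left, jacobiSym.mul_left, jsq hlp hlk, mul_one]
      exact jm5 hlp hl5 hgl'
  rw [Finset.prod_congr rfl hfc, Finset.prod_const] at key
  exact_mod_cast key

theorem t_H5e (h : S_PCGe) : S_H5e := t_H5e4 h

end Pool.Agent.XW
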