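import Pool.Agent.XW.T3.Defs
import Pool.Agent.NH1.RPar

/-!
# Project XW, T3: the parity of the class number and the Rédei kernel, even discriminants (helper87)

Port of `XV/T3/Par.lean` (helper68).
-/

set_option autoImplicit false

namespace Pool.Agent.XW

namespace Par87

open Finset
open Pool.Agent.Z700 (V3 pr)
open Pool.Agent.NH1.RPar (jac_pm jac_prod_left sg_eq even_of_free odd_of_one)

/-- the set of the primes with the sign `-1` -/
abbrev sn (N : Finset ℕ) (γ : ℕ → ℤ) : Finset ℕ := Pool.Agent.NH1.RPar.sg N γ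

/-- the entries of the Rédei matrix -/
def cc (δ : ℤ) (N : Finset ℕ) (p t : ℕ) : ℤ :=
  if t = p then jacobiSym ((pe δ N / p : ℕ) : ℤ) p else jacobiSym (t : ℤ) p

theorem md_cop {δ : ℤ} (hδ : Dt δ) {N : Finset ℕ} (hN : Pe N) {p t : ℕ} (hp : p ∈ N.erase 2)
    (ht : t ∈ N.erase p) : Nat.Coprime (md δ t) p := by
  have hpp : p.Prime := (hN p (mem_of_mem_erase hp)).1
  have htp : t.Prime := (hN t (mem_of_mem_erase ht)).1
  have hp2 : p ≠ 2 := ne_of_mem_erase hp
  unfold md
  split_ifs with h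
  · have h2 : Nat.Coprime 2 p := (Nat.coprime_primes Nat.prime_two hpp).2 (Ne.symm hp2)
    rcases hδ with h1 | h1 | h1 <;> rw [h1]
    · exact h2.pow_left 2
    · exact h2.pow_left 3
    · exact h2.pow_left 3
  · exact (Nat.coprime_primes htp hpp).2 (ne_of_mem_erase ht)

theorem pe_div {δ : ℤ} {N : Finset ℕ} (hN : Pe N) {p : ℕ} (hp : p ∈ N.erase 2) :
    pe δ N / p = ∏ t ∈ N.erase p, md δ t := by
  have hp0 : 0 < p := (hN p (mem_of_mem_erase hp)).1.pos
  have h1 : pe δ N = p * ∏ t ∈ N.erase p, md δ t := by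
    unfold pe
    rw [← mul_prod_erase N (md δ) (mem_of_mem_erase hp)]
    congr 1
    unfold md
    rw [if_neg (ne_of_mem_erase hp)]
  rw [h1, Nat.mul_div_cancel_left _ hp0]

theorem cc_sq {δ : ℤ} (hδ : Dt δ) {N : Finset ℕ} (hN : Pe N) {p t : ℕ} (hp : p ∈ N.erase 2)
    (ht : t ∈ N) : cc δ N p t * cc δ N p t = 1 := by
  unfold cc
  split_ifs with h
  · rcases jacobiSym.eq_one_or_neg_one (a := ((pe δ N / p : ℕ) : ℤ)) (b := p) (by
      rw [Int.gcd_natCast_natCast, pe_div hN hp]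
      exact Nat.Coprime.prod_left fun s hs => md_cop hδ hN hp hs) with h1 | h1 <;>
      rw [h1] <;> norm_num
  · rcases jac_pm (hN p (mem_of_mem_erase hp)).1 (hN t ht).1 h with h1 | h1 <;>
      rw [h1] <;> norm_num

theorem gen_eq {δ : ℤ} {N D : Finset ℕ} (hN : Pe N) {p : ℕ} (hp : p ∈ N.erase 2) :
    gen δ N D p = ∏ t ∈ D, cc δ N p t := by
  have hp0 : 0 < p := (hN p (mem_of_mem_erase hp)).1.pos
  unfold gen
  split_ifs with h
  · have e1 : (∏ l ∈ D, l) / p = ∏ l ∈ D.erase p, l := by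
      rw [← mul_prod_erase D (fun l => l) h, Nat.mul_div_cancel_left _ hp0]
    have e2 : jacobiSym ((∏ l ∈ D.erase p, l : ℕ) : ℤ) p =
        ∏ t ∈ D.erase p, jacobiSym (t : ℤ) p := jac_prod_left
    rw [e1, Nat.cast_mul, jacobiSym.mul_left, e2, ← mul_prod_erase D (cc δ N p) h, mul_comm]
    congr 1
    · unfold cc
      rw [if_pos rfl]
    · refine prod_congr rfl fun t ht => ?_
      unfold cc
      rw [if_neg (ne_of_mem_erase ht)]
  · have e2 : jacobiSym ((∏ l ∈ D, l : ℕ) : ℤ) p = ∏ t ∈ D, jacobiSym (t : ℤ) p := jac_prod_left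
    rw [e2]
    refine prod_congr rfl fun t ht => ?_
    unfold cc
    rw [if_neg fun h1 : t = p => h (h1 ▸ ht)]

theorem gen_mul {δ : ℤ} (hδ : Dt δ) {N D D' : Finset ℕ} (hN : Pe N) (hD : D ⊆ N) {p : ℕ}
    (hp : p ∈ N.erase 2) : gen δ N (symmDiff D D') p = gen δ N D p * gen δ N D' p := by
  rw [gen_eq hN hp, gen_eq hN hp, gen_eq hN hp]
  have e1 : symmDiff D D' = (D \ D') ∪ (D' \ D) := rfl
  have d1 : Disjoint (D \ D') (D' \ D) := by
    rw [disjoint_left]
    intro x hx hx2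
    exact (mem_sdiff.1 hx2).2 (mem_sdiff.1 hx).1
  rw [e1, prod_union d1, ← prod_inter_mul_prod_sdiff D D', ← prod_inter_mul_prod_sdiff D' D,
    inter_comm D' D]
  have e2 : (∏ t ∈ D ∩ D', cc δ N p t) * ∏ t ∈ D ∩ D', cc δ N p t = 1 := by
    rw [← prod_mul_distrib]
    exact prod_eq_one fun t ht => cc_sq hδ hN hp (hD (mem_inter.1 ht).1)
  linear_combination (-(∏ t ∈ D \ D', cc δ N p t) * ∏ t ∈ D' \ D, cc δ N p t) * e2

theorem gen_pm {δ : ℤ} (hδ : Dt δ) {N D : Finset ℕ} (hN : Pe N) (hD : D ⊆ N) {p : ℕ}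
    (hp : p ∈ N.erase 2) : gen δ N D p = 1 ∨ gen δ N D p = -1 := by
  have h1 : gen δ N D p * gen δ N D p = 1 := by
    rw [gen_eq hN hp, ← prod_mul_distrib]
    exact prod_eq_one fun t ht => cc_sq hδ hN hp (hD ht)
  exact mul_self_eq_one_iff.1 h1

theorem surj {δ : ℤ} (hδ : Dt δ) {N : Finset ℕ} (hN : Pe N) (h2 : 2 ∈ N) (hk : Kr δ N)
    (γ : ℕ → ℤ) (hγ : ∀ p ∈ N.erase 2, γ p = 1 ∨ γ p = -1) :
    ∃ D ⊆ N, ∀ p ∈ N.erase 2, gen δ N D p = γ p := by
  classical
  have hpm : ∀ D ⊆ N, ∀ p ∈ N.erase 2, gen δ N D p = 1 ∨ gen δ N D p = -1 :=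
    fun D hD p hp => gen_pm hδ hN hD hp
  obtain ⟨D0, hD0⟩ : ∃ D0 : Finset ℕ, D0 = if δ = -4 then N.erase 2 else N := ⟨_, rfl⟩
  obtain ⟨f, hf⟩ : ∃ f : Finset ℕ → Finset ℕ, ∀ D, f D = sn (N.erase 2) (gen δ N D) :=
    ⟨_, fun _ => rfl⟩
  have him : N.powerset.image f ⊆ (N.erase 2).powerset := by
    intro M hM
    obtain ⟨x, -, rfl⟩ := mem_image.1 hM
    rw [hf]
    exact mem_powerset.2 (filter_subset _ _)
  have hfib : ∀ a ∈ N.powerset.image f, (N.powerset.filter fun x => f x = a).card ≤ 2 := by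
    intro a _
    rcases (N.powerset.filter fun x => f x = a).eq_empty_or_nonempty with h | ⟨x0, hx0⟩
    · rw [h]; simp
    · have hx0' := mem_filter.1 hx0
      have hD0' : x0 ⊆ N := mem_powerset.1 hx0'.1
      have hsub : (N.powerset.filter fun x => f x = a) ⊆ {x0, symmDiff x0 D0} := by
        intro x hx
        have hx' := mem_filter.1 hx
        have hD : x ⊆ N := mem_powerset.1 hx'.1
        have heq : ∀ p ∈ N.erase 2, gen δ N x p = gen δ N x0 p := by
          refine sg_eq (hpm x hD) (hpm x0 hD0') ?_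
          have := hx'.2.trans hx0'.2.symm
          rw [hf, hf] at this
          exact this
        have hs : symmDiff x0 x ⊆ N := by
          intro y hy
          rcases mem_symmDiff.1 hy with h | h
          · exact hD0' h.1
          · exact hD h.1
        have hkk := hk (symmDiff x0 x) hs (by
          intro p hp
          rw [gen_mul hδ hN hD0' hp, heq p hp]
          rcases hpm x0 hD0' p hp with h | h <;> rw [h] <;> norm_num)
        rw [← hD0] at hkk
        rw [mem_insert, mem_singleton]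
        have hx1 : x = symmDiff x0 (symmDiff x0 x) := (symmDiff_symmDiff_cancel_left x0 x).symm
        rcases hkk with h | h
        · left
          rw [hx1, h]
          exact symmDiff_bot x0
        · right
          rw [← h]
          exact hx1
      exact (card_le_card hsub).trans card_le_two
  have hcard := card_le_mul_card_image N.powerset 2 hfib
  have hcN : N.card = (N.erase 2).card + 1 := (card_erase_add_one h2).symm
  have hle : (N.erase 2).powerset.card ≤ (N.powerset.image f).card := by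
    rw [card_powerset]
    rw [card_powerset, hcN, pow_succ] at hcard
    omega
  have heq := eq_of_subset_of_card_le him hle
  have hmem : sn (N.erase 2) γ ∈ N.powerset.image f := by
    rw [heq]
    exact mem_powerset.2 (filter_subset _ _)
  obtain ⟨x, hx, hfx⟩ := mem_image.1 hmem
  refine ⟨x, mem_powerset.1 hx, ?_⟩
  rw [hf] at hfx
  exact sg_eq (hpm x (mem_powerset.1 hx)) hγ hfx

theorem jac_mul (p : ℕ) : jacobiSym (-5) p = jacobiSym (-1) p * jacobiSym 5 p := by
  rw [← jacobiSym.mul_left]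
  norm_num

theorem jac_pm' {N : Finset ℕ} (hN : Pe N) {p : ℕ} (hp : p ∈ N.erase 2) :
    (jacobiSym 5 p = 1 ∨ jacobiSym 5 p = -1) ∧ (jacobiSym (-1) p = 1 ∨ jacobiSym (-1) p = -1) ∧
    (jacobiSym (-5) p = 1 ∨ jacobiSym (-5) p = -1) := by
  have hp' := hN p (mem_of_mem_erase hp)
  have h1 : jacobiSym 5 p = 1 ∨ jacobiSym 5 p = -1 := by
    have := jac_pm hp'.1 Nat.prime_five (Ne.symm hp'.2.2)
    exact_mod_cast this
  have h2 : jacobiSym (-1) p = 1 ∨ jacobiSym (-1) p = -1 := by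
    apply jacobiSym.eq_one_or_neg_one
    simp
  refine ⟨h1, h2, ?_⟩
  rw [jac_mul]
  rcases h1 with h1 | h1 <;> rcases h2 with h2 | h2 <;> rw [h1, h2] <;> norm_num

/-- the parity from the operators -/
theorem par {δ : ℤ} (hδ : Dt δ) {N : Finset ℕ} (hN : Pe N) (h2N : 2 ∈ N) {T : ℤ}
    (h : Ops5e δ N T) : Odd T ↔ Kr δ N := by
  obtain ⟨Ω, i1, i2, Tt, ρ, ν, χ, hT0, hTT, hrn, hcom, hχT, hχ, hgen, hfree, hfixB⟩ := h
  classical
  have hG1 : 3 * (Nat.card {ω : Ω // ∀ p ∈ N, χ ω p = 1} : ℤ) = T :=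
    hgen (fun _ => 1) fun p hp => Or.inl rfl
  have hpar : Odd T ↔ Odd (Fintype.card {ω : Ω // ∀ p ∈ N, χ ω p = 1}) := by
    rw [← hG1, Nat.card_eq_fintype_card, Int.odd_mul]
    constructor
    · rintro ⟨-, h2⟩
      exact_mod_cast h2
    · intro h2
      exact ⟨by decide, by exact_mod_cast h2⟩
  have hTinv : ∀ D ⊆ N, ∀ ω, Tt D (Tt D ω) = ω := by
    intro D hD ω
    rw [hTT D hD D hD ω, symmDiff_self]
    exact hT0 ω
  have hcases : ∀ p ∈ N, p = 2 ∨ p ∈ N.erase 2 := fun p hp => by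
    by_cases h : p = 2
    · exact Or.inl h
    · exact Or.inr (mem_erase.2 ⟨h, hp⟩)
  rw [hpar]
  constructor
  · intro hodd D hD hg
    by_contra hne
    have hfr := hfree D hD hne
    have hchi : ∀ ω, ∀ p ∈ N, χ (Tt D ω) p = χ ω p := by
      intro ω p hp
      rcases hcases p hp with h | h
      · rw [h]
        exact (hχT D hD ω).2
      · rw [(hχT D hD ω).1 p h, hg p h, one_mul]
    have hev := even_of_free
      (fun x : {ω : Ω // ∀ p ∈ N, χ ω p = 1} =>
        (⟨Tt D x.1, fun p hp => (hchi x.1 p hp).trans (x.2 p hp)⟩ :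
          {ω : Ω // ∀ p ∈ N, χ ω p = 1}))
      (fun x => Subtype.ext (hTinv D hD x.1)) (fun x hx => hfr x.1 (congrArg Subtype.val hx))
    exact (Nat.not_odd_iff_even.2 hev) hodd
  · intro hk
    -- the transitivity
    have hsurj := surj hδ hN h2N hk
    -- the involution
    obtain ⟨D1, hD1, hg1⟩ := hsurj (fun p => jacobiSym (-5) p) fun p hp => (jac_pm' hN hp).2.2
    have hTcom : ∀ D ⊆ N, ∀ D' ⊆ N, ∀ ω, Tt D (Tt D' ω) = Tt D' (Tt D ω) := by
      intro D hD D' hD' ω
      rw [hTT D hD D' hD', hTT D' hD' D hD, symmDiff_comm]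
    obtain ⟨ι, hιι, hιχ, hιT, hιν, hιc⟩ : ∃ ι : Ω → Ω, (∀ ω, ι (ι ω) = ω) ∧
        (∀ ω, ∀ p ∈ N, χ (ι ω) p = χ ω p) ∧ (∀ D ⊆ N, ∀ ω, ι (Tt D ω) = Tt D (ι ω)) ∧
        (∀ ω, ι (ν ω) = ν (ι ω)) ∧ Nat.card {ω : Ω // ι ω = ω} = 2 ^ N.card := by
      refine ⟨fun ω => ν (ρ (Tt D1 ω)), ?_, ?_, ?_, ?_, hfixB D1 hD1 hg1⟩
      · intro ω
        show ν (ρ (Tt D1 (ν (ρ (Tt D1 ω))))) = ω
        rw [(hcom D1 hD1 _).2, (hcom D1 hD1 _).1, (hrn _).2.2, (hrn _).2.1, (hrn _).1]
        exact hTinv D1 hD1 ω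
      · intro ω p hp
        show χ (ν (ρ (Tt D1 ω))) p = χ ω p
        rcases hcases p hp with h | h
        · rw [h, (hχ _).2.2.1, (hχ _).2.1, (hχT D1 hD1 _).2, neg_neg]
        · rw [((hχ _).1 p h).2, ((hχ _).1 p h).1, (hχT D1 hD1 _).1 p h, hg1 p h, jac_mul]
          rcases (jac_pm' hN h).2.1 with h2 | h2 <;>
            rcases (jac_pm' hN h).1 with h3 | h3 <;> rw [h2, h3] <;> ring
      · intro D' hD' ω
        show ν (ρ (Tt D1 (Tt D' ω))) = Tt D' (ν (ρ (Tt D1 ω)))
        rw [hTcom D1 hD1 D' hD', (hcom D' hD' _).2, (hcom D' hD' _).1]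
      · intro ω
        show ν (ρ (Tt D1 (ν ω))) = ν (ν (ρ (Tt D1 ω)))
        rw [(hcom D1 hD1 ω).2, (hrn (Tt D1 ω)).2.2]
    -- the fixed points
    set F : Finset Ω := univ.filter fun ω => ι ω = ω with hF
    have hFc : F.card = 2 ^ N.card := by
      rw [← hιc, Nat.card_eq_fintype_card, Fintype.card_subtype]
    have hpm : ∀ ω : Ω, ∀ p ∈ N, χ ω p = 1 ∨ χ ω p = -1 := fun ω p hp => (hχ ω).2.2.2 p hp
    have himg : F.image (fun ω => sn N (χ ω)) = N.powerset := by
      apply subset_antisymm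
      · intro M hM
        obtain ⟨ω, -, rfl⟩ := mem_image.1 hM
        exact mem_powerset.2 (filter_subset _ _)
      · intro M hM
        have hne : F.Nonempty := by
          rw [← card_pos, hFc]
          positivity
        obtain ⟨ω0, hω0⟩ := hne
        have h0 : ι ω0 = ω0 := (mem_filter.1 hω0).2
        -- the sign at `2`
        obtain ⟨ω1, hω1, hω12⟩ : ∃ ω1, ι ω1 = ω1 ∧ χ ω1 2 = if 2 ∈ M then -1 else 1 := by
          by_cases hs : χ ω0 2 = if 2 ∈ M then -1 else 1
          · exact ⟨ω0, h0, hs⟩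
          · refine ⟨ν ω0, by rw [hιν, h0], ?_⟩
            rw [(hχ ω0).2.2.1]
            rcases hpm ω0 2 h2N with h | h <;> rw [h] at hs ⊢ <;> split_ifs at hs ⊢ <;>
              first | rfl | exact absurd rfl hs
        obtain ⟨D, hD, hg⟩ := hsurj (fun p => (if p ∈ M then -1 else 1) * χ ω1 p) (by
          intro p hp
          rcases hpm ω1 p (mem_of_mem_erase hp) with h2 | h2 <;> simp only [h2] <;>
            split_ifs <;> norm_num)
        refine mem_image.2 ⟨Tt D ω1, ?_, ?_⟩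
        · rw [hF, mem_filter]
          refine ⟨mem_univ _, ?_⟩
          rw [hιT D hD, hω1]
        · have hval : ∀ p ∈ N, χ (Tt D ω1) p = if p ∈ M then -1 else 1 := by
            intro p hp
            rcases hcases p hp with h | h
            · rw [h, (hχT D hD ω1).2, hω12]
            · have h1 := hg p h
              rw [(hχT D hD ω1).1 p h, h1]
              rcases hpm ω1 p hp with h2 | h2 <;> rw [h2] <;> ring
          ext p
          unfold sn Pool.Agent.NH1.RPar.sg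
          rw [mem_filter]
          constructor
          · rintro ⟨hp, hp2⟩
            rw [hval p hp] at hp2
            by_contra h
            rw [if_neg h] at hp2
            norm_num at hp2
          · intro hp
            have hpN := (mem_powerset.1 hM) hp
            refine ⟨hpN, ?_⟩
            rw [hval p hpN, if_pos hp]
    have hinj : Set.InjOn (fun ω => sn N (χ ω)) F := by
      apply injOn_of_card_image_eq
      rw [himg, card_powerset, hFc]
    have hemp : (∅ : Finset ℕ) ∈ F.image (fun ω => sn N (χ ω)) := by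
      rw [himg]
      exact empty_mem_powerset _
    obtain ⟨ω1, hω1, hs1⟩ := mem_image.1 hemp
    have hone : ∀ ω : Ω, sn N (χ ω) = ∅ ↔ ∀ p ∈ N, χ ω p = 1 := by
      intro ω
      unfold sn Pool.Agent.NH1.RPar.sg
      rw [filter_eq_empty_iff]
      constructor
      · intro h p hp
        rcases hpm ω p hp with h2 | h2
        · exact h2
        · exact absurd h2 (h hp)
      · intro h p hp
        rw [h p hp]
        norm_num
    refine odd_of_one
      (fun x : {ω : Ω // ∀ p ∈ N, χ ω p = 1} =>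
        (⟨ι x.1, fun p hp => (hιχ x.1 p hp).trans (x.2 p hp)⟩ :
          {ω : Ω // ∀ p ∈ N, χ ω p = 1}))
      (fun x => Subtype.ext (hιι x.1)) ⟨ω1, (hone ω1).1 hs1⟩ ?_
    intro x
    constructor
    · intro hx
      have hx1 : ι x.1 = x.1 := congrArg Subtype.val hx
      apply Subtype.ext
      apply hinj
      · exact mem_coe.2 (mem_filter.2 ⟨mem_univ _, hx1⟩)
      · exact mem_coe.2 hω1
      · show sn N (χ x.1) = sn N (χ ω1)
        rw [(hone x.1).2 x.2]
        exact hs1.symm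
    · intro hx
      subst hx
      apply Subtype.ext
      exact (mem_filter.1 hω1).2

end Par87

open Pool.Agent.Z700 (V3 pr) in
open Pool.Agent.NH1 (rd) in
/-- **V5** for `2 ∈ N` -/
theorem t_V5e (h : S_OPSe) (h4 : S_EQUe) : S_V5e := by
  intro δ hδ N hN h2 hJ
  have h1 := h4 δ hδ 5 (Or.inr rfl) N hN h2 (fun _ => hJ) (fun h3 => absurd h3 (by norm_num))
    (fun _ => 1) (fun p _ => Or.inl rfl)
  refine ⟨(Nat.card {v : V3 // v ∈ XV.vec 5 (pe δ N : ℤ) ∧ ∀ p ∈ N, gm δ 5 N p v = 1} : ℤ), ?_, ?_⟩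
  · rw [← h1]
    push_cast
    ring
  · refine Par87.par hδ hN h2 (h δ hδ N hN h2 hJ _ ?_)
    rw [← h1]
    push_cast
    ring

end Pool.Agent.XW
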