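import Pool.Agent.XW.T3.Defs
import Pool.Agent.XV.T3.V3

set_option autoImplicit false

/-!
# Project XW, T3: the number of vectors of `L 3` is divisible by `6 * 2 ^ N.card`, even discriminants
(port of XV/T3/V3.lean by helper47)
-/

namespace Pool.Agent.XW

open Finset
open Pool.Agent.Z700 (V3 pr)
open Pool.Agent.NH1 (rd)
open Pool.Agent.XV (bl vec ph Ph Pq S_PHI S_REF)

namespace V3Y

theorem pq {N : Finset ℕ} (hN : Pe N) : Pq (N.erase 2) := by
  intro p hp
  rw [mem_erase] at hp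
  exact ⟨(hN p hp.2).1, hp.1, (hN p hp.2).2.1, (hN p hp.2).2.2⟩

theorem pe_eq {δ : ℤ} {N : Finset ℕ} (h2 : 2 ∈ N) : pe δ N = δ.natAbs * pr (N.erase 2) := by
  unfold pe pr
  rw [← mul_prod_erase _ _ h2]
  congr 1
  refine prod_congr rfl fun p hp => ?_
  unfold md
  rw [if_neg (ne_of_mem_erase hp)]

theorem om_congr {M : ℕ} {v w : V3} (h : (3 : ℤ) ∣ el 3 v - el 3 w) : om 3 M v = om 3 M w := by
  unfold om
  have h1 : (if (3 : ℕ) = 5 ∧ M % 5 = 2 then (2 : ℤ) else 1) = 1 := if_neg (by norm_num)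
  rw [h1]
  have h2 : ((3 : ℕ) : ℤ) ∣ el 3 v - 1 ↔ ((3 : ℕ) : ℤ) ∣ el 3 w - 1 := by
    have h3 : ((3 : ℕ) : ℤ) = 3 := rfl
    rw [h3]
    omega
  by_cases h4 : ((3 : ℕ) : ℤ) ∣ el 3 w - 1
  · rw [if_pos h4, if_pos (h2.2 h4)]
  · rw [if_neg h4, if_neg fun h5 => h4 (h2.1 h5)]

theorem el3 (v : V3) : el 3 v = v 1 - v 2 := by
  unfold el
  rw [if_neg (by norm_num)]

section
variable {δ : ℤ} {N : Finset ℕ} (hN : Pe N) (h0 : S_PHI) (h1 : S_REF)
include hN h0 h1

theorem rot_gm {p : ℕ} (hp : p ∈ N) (v : V3) :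
    gm δ 3 N p (![v 0, v 2, -v 1 - v 2] : V3) = gm δ 3 N p v := by
  unfold gm
  by_cases h2 : p = 2
  · rw [if_pos h2, if_pos h2, XV.V3X.rot_Ph h0 h1 (pq hN)]
    congr 1
    refine om_congr ?_
    rw [el3, el3]
    change (3 : ℤ) ∣ v 2 - (-v 1 - v 2) - (v 1 - v 2)
    exact ⟨v 2, by ring⟩
  · rw [if_neg h2, if_neg h2, ← XV.V3X.single, ← XV.V3X.single]
    refine XV.V3X.rot_Ph h0 h1 (P := {p}) ?_ v
    intro l hl
    rw [mem_singleton.1 hl]
    exact ⟨(hN p hp).1, h2, (hN p hp).2.1, (hN p hp).2.2⟩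

theorem half_gm {p : ℕ} (hp : p ∈ N) (v : V3) :
    gm δ 3 N p (![-v 0, -v 2, -v 1] : V3) = gm δ 3 N p v := by
  unfold gm
  by_cases h2 : p = 2
  · rw [if_pos h2, if_pos h2, XV.V3X.half_Ph h0 h1 (pq hN)]
    congr 1
    refine om_congr ?_
    rw [el3, el3]
    change (3 : ℤ) ∣ -v 2 - -v 1 - (v 1 - v 2)
    exact ⟨0, by ring⟩
  · rw [if_neg h2, if_neg h2, ← XV.V3X.single, ← XV.V3X.single]
    refine XV.V3X.half_Ph h0 h1 (P := {p}) ?_ v
    intro l hl
    rw [mem_singleton.1 hl]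
    exact ⟨(hN p hp).1, h2, (hN p hp).2.1, (hN p hp).2.2⟩

end

theorem pr_squarefree {N : Finset ℕ} (hN : Pq N) : Squarefree (pr N) := by
  unfold Pool.Agent.Z700.pr
  exact Finset.squarefree_prod_of_pairwise_isCoprime
    (fun p hp q hq hpq => (Nat.coprime_iff_isRelPrime.1
      ((Nat.coprime_primes (hN p hp).1 (hN q hq).1).2 hpq)))
    (fun p hp => (hN p hp).1.squarefree)

/-- the norm is four times a square only for the exceptional case -/
theorem no_sq {δ : ℤ} (hδ : Dt δ) {N : Finset ℕ} (hN : Pe N) (h2 : 2 ∈ N) (hX : ¬ Xi δ N) (a : ℤ)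
    (ha : (pe δ N : ℤ) = 4 * (a * a)) : False := by
  obtain ⟨hodd, -, -⟩ := XV.Van.pr_cop (pq hN)
  rw [pe_eq h2] at ha
  have hp0 : ((pr (N.erase 2) : ℕ) : ℤ) % 2 = 1 := by exact_mod_cast hodd
  rcases hδ with rfl | rfl | rfl
  · have h3 : ((pr (N.erase 2) : ℕ) : ℤ) = a * a := by
      have h4 : (-4 : ℤ).natAbs = 4 := rfl
      rw [h4] at ha
      push_cast at ha
      linarith
    apply hX
    refine ⟨rfl, ?_⟩
    have h5 : N.erase 2 = ∅ := by
      rw [eq_empty_iff_forall_notMem]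
      intro p hp
      have hpp := (pq hN p hp).1
      have hsq := pr_squarefree (pq hN)
      have h6 : (p : ℤ) ∣ a := by
        have h7 : (p : ℤ) ∣ a * a := by
          rw [← h3]
          exact_mod_cast dvd_prod_of_mem (fun p => p) hp
        rcases (Nat.prime_iff_prime_int.1 hpp).dvd_or_dvd h7 with h8 | h8 <;> exact h8
      have h7 : ((p * p : ℕ) : ℤ) ∣ ((pr (N.erase 2) : ℕ) : ℤ) := by
        rw [h3]
        push_cast
        exact mul_dvd_mul h6 h6
      have h8 : p * p ∣ pr (N.erase 2) := Int.natCast_dvd_natCast.1 h7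
      have h9 := hsq p h8
      exact hpp.one_lt.ne' (Nat.isUnit_iff.1 h9)
    rw [← insert_erase h2, h5]
    rfl
  · have h4 : (8 : ℤ).natAbs = 8 := rfl
    rw [h4] at ha
    push_cast at ha
    have h5 : a * a % 4 = 0 ∨ a * a % 4 = 1 := by
      rcases Int.emod_two_eq_zero_or_one a with h | h
      · left
        obtain ⟨b, rfl⟩ := Int.dvd_of_emod_eq_zero h
        have : 2 * b * (2 * b) = 4 * (b * b) := by ring
        omega
      · right
        obtain ⟨b, hb⟩ : ∃ b, a = 2 * b + 1 := ⟨a / 2, by omega⟩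
        rw [hb]
        have : (2 * b + 1) * (2 * b + 1) = 4 * (b * b + b) + 1 := by ring
        omega
    omega
  · have h4 : (-8 : ℤ).natAbs = 8 := rfl
    rw [h4] at ha
    push_cast at ha
    have h5 : a * a % 4 = 0 ∨ a * a % 4 = 1 := by
      rcases Int.emod_two_eq_zero_or_one a with h | h
      · left
        obtain ⟨b, rfl⟩ := Int.dvd_of_emod_eq_zero h
        have : 2 * b * (2 * b) = 4 * (b * b) := by ring
        omega
      · right
        obtain ⟨b, hb⟩ : ∃ b, a = 2 * b + 1 := ⟨a / 2, by omega⟩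
        rw [hb]
        have : (2 * b + 1) * (2 * b + 1) = 4 * (b * b + b) + 1 := by ring
        omega
    omega

end V3Y

theorem t_V3e (h0 : S_PHI) (h1 : S_REF) (h4 : S_EQUe) : S_V3e := by
  classical
  intro δ hδ N hN h2N hd hX
  have hq := h4 δ hδ 3 (Or.inl rfl) N hN h2N (fun h => absurd h (by norm_num)) (fun _ => hd)
    (fun _ => 1) (fun _ _ => Or.inl rfl)
  set S := (vec 3 (pe δ N : ℤ)).filter fun v => ∀ p ∈ N, gm δ 3 N p v = 1 with hS
  have hc : Nat.card {v : V3 // v ∈ vec 3 (pe δ N : ℤ) ∧ ∀ p ∈ N, gm δ 3 N p v = 1} = S.card :=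
    Nat.subtype_card S fun v => by rw [hS, mem_filter]
  rw [hc] at hq
  have d3 : 3 ∣ S.card := by
    refine XV.V3X.three S (fun v => ![v 0, v 2, -v 1 - v 2]) ?_ ?_ ?_
    · intro v hv
      rw [hS, mem_filter, XV.Van.mem3, XV.Van.bl3] at hv ⊢
      refine ⟨?_, fun p hp => ?_⟩
      · rw [← hv.1]
        show 3 * (v 0 * v 0) + 4 * (v 2 * v 2) + 4 * ((-v 1 - v 2) * (-v 1 - v 2)) +
          2 * (v 2 * (-v 1 - v 2) + (-v 1 - v 2) * v 2) = _
        ring
      · rw [V3Y.rot_gm hN h0 h1 hp]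
        exact hv.2 p hp
    · intro v _
      refine XV.Van.ext3 ?_ ?_ ?_
      · rfl
      · show -v 2 - (-v 1 - v 2) = v 1
        ring
      · show -(-v 1 - v 2) - (-v 2 - (-v 1 - v 2)) = v 2
        ring
    · intro v hv he
      rw [hS, mem_filter, XV.Van.mem3, XV.Van.bl3] at hv
      have e1 : v 2 = v 1 := congrFun he 1
      have e2 : -v 1 - v 2 = v 2 := congrFun he 2
      have k2 : v 2 = 0 := by linarith
      have k1 : v 1 = 0 := by linarith
      have h := hv.1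
      rw [k1, k2] at h
      have h5 := hd.2.1
      omega
  have d2 : 2 ∣ S.card := by
    refine XV.V3X.two S (fun v => ![-v 0, -v 2, -v 1]) ?_ ?_ ?_
    · intro v hv
      rw [hS, mem_filter, XV.Van.mem3, XV.Van.bl3] at hv ⊢
      refine ⟨?_, fun p hp => ?_⟩
      · rw [← hv.1]
        show 3 * (-v 0 * -v 0) + 4 * (-v 2 * -v 2) + 4 * (-v 1 * -v 1) +
          2 * (-v 2 * -v 1 + -v 1 * -v 2) = _
        ring
      · rw [V3Y.half_gm hN h0 h1 hp]
        exact hv.2 p hp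
    · intro v _
      refine XV.Van.ext3 ?_ ?_ ?_
      · show - -v 0 = v 0
        ring
      · show - -v 1 = v 1
        ring
      · show - -v 2 = v 2
        ring
    · intro v hv he
      rw [hS, mem_filter, XV.Van.mem3, XV.Van.bl3] at hv
      have e0 : -v 0 = v 0 := congrFun he 0
      have e1 : -v 2 = v 1 := congrFun he 1
      have k0 : v 0 = 0 := by linarith
      have h := hv.1
      rw [k0, ← e1] at h
      exact V3Y.no_sq hδ hN h2N hX (v 2) (by rw [← h]; ring)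
  obtain ⟨T, hT⟩ : 6 ∣ S.card := Nat.Coprime.mul_dvd_of_dvd_of_dvd (by norm_num) d2 d3
  refine ⟨T, ?_⟩
  rw [← hq, hT]
  push_cast
  ring

end Pool.Agent.XW
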