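import Pool.Agent.XW.T3.Ops
import Pool.Agent.XW.T3.Ex
import Pool.Agent.XW.T3.V3
import Pool.Agent.XW.T3.Par
import Pool.Agent.XW.T3.CH
import Pool.Agent.XW.T3.H5
import Pool.Agent.XW.Odd
import Pool.Agent.XV.T3.Fin

/-!
# Project XW, T3: the statements `S_V4`, `S_V3`, `S_V5` from the statements for `2 ∈ N` (helper2)
-/

set_option autoImplicit false

namespace Pool.Agent.XW

open Finset
open Pool.Agent.Z700 (V3 pr)
open Pool.Agent.XW.Od
open Pool.Agent.XV (vec Ph S_PHI S_CH)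

/-- the sums over all vectors vanish -/
theorem V4_of (h : S_V4e) : S_V4 := by
  intro δ hδ q hq N hN h5 h3 P hP hne
  by_cases h2 : 2 ∈ N
  · exact h δ hδ q hq N hN h2 h5 h3 P hP hne
  · rw [pe_odd h2]
    refine (Finset.sum_congr rfl fun v _ => Pt_odd (fun h => h2 (hP h)) v).trans ?_
    exact XV.f_V4 q hq N (Pq_of_Pe hN h2) (fun e => (Jb_odd hN h2).1 (h5 e))
      (fun e => (Jd_odd hN h2).1 (h3 e)) P hP hne

/-- the number of vectors of the lattice `L 3` -/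
theorem V3_of (h : S_V3e) : S_V3 := by
  intro δ hδ N hN hJ hX
  by_cases h2 : 2 ∈ N
  · exact h δ hδ N hN h2 hJ hX
  · rw [pe_odd h2]
    exact XV.f_V3 N (Pq_of_Pe hN h2) ((Jd_odd hN h2).1 hJ)

/-- the number of vectors of the lattice `L 5` -/
theorem V5_of (h : S_V5e) : S_V5 := by
  intro δ hδ N hN hJ
  by_cases h2 : 2 ∈ N
  · exact h δ hδ N hN h2 hJ
  · rw [pe_odd h2, Kr_odd hN h2]
    exact XV.u_V5 N (Pq_of_Pe hN h2) ((Jb_odd hN h2).1 hJ)

theorem f_CHNe : S_CHNe := t_CHNe XV.t_PHI XV.t_DV XV.t_CH t_OMT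

theorem OPSe_of (hp : S_PCGe) (he : S_EQUe) : S_OPSe :=
  t_OPSe XV.t_PHI he t_EXG t_DVG XV.t_CH f_CHNe t_OMN (t_H5e hp)

/-- the number of vectors of the lattice `L 5` and the Rédei kernel -/
theorem V5_of' (hp : S_PCGe) (he : S_EQUe) : S_V5 := V5_of (t_V5e (OPSe_of hp he) he)

theorem V3_of' (he : S_EQUe) : S_V3 := V3_of (t_V3e XV.t_PHI XV.t_REF he)

end Pool.Agent.XW
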