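import Pool.Agent.XW.T3.Defs
import Pool.Agent.XV.T3.Ex

/-!
# Project XW, T3: the classes of the vectors of `L 5` and the operators, even discriminants (helper2)

Port of `XV/T3/Cl.lean` (helper87).
-/

set_option autoImplicit false

namespace Pool.Agent.XW.Cl

open Finset
open Pool.Agent.Z700 (V3 pr)
open Pool.Agent.XV (bl vec QA pv)
open Pool.Agent.XV.QA
open Pool.Agent.XV.T3
open Pool.Agent.XV.T3.Cl hiding unit_of tp_of rel_uniq comm_form unit_comm uniq_x card_class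
  exists_rel TT_spec TT_eq TT_one TT_mul TT_TT TT_Rh TT_Nu card_fib card_om card_om' cop_of

/-- the hypothesis on the numbers: `M = 4 d0`, `e0` the product of the ramified primes -/
structure Hm (M d0 e0 : ℕ) : Prop where
  eM : M = 4 * d0
  sf : Squarefree e0
  cop : Nat.Coprime e0 15
  gt : 1 < d0
  md : (d0 % 4 = 1 ∧ e0 = 2 * d0) ∨ (d0 % 4 = 2 ∧ e0 = d0)

variable {M d0 e0 : ℕ}

theorem Hm.dvd (h : Hm M d0 e0) : d0 ∣ e0 := by
  rcases h.md with ⟨-, h1⟩ | ⟨-, h1⟩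
  · exact ⟨2, by rw [h1, mul_comm]⟩
  · rw [h1]

theorem Hm.sd (h : Hm M d0 e0) : Squarefree d0 := h.sf.squarefree_of_dvd h.dvd

theorem Hm.dvd_ne (h : Hm M d0 e0) {d : ℕ} (hd : d ∣ e0) : d ≠ 0 := fun h0 =>
  h.sf.ne_zero (by rw [h0] at hd; exact Nat.eq_zero_of_zero_dvd hd)

theorem Hm.M0 (h : Hm M d0 e0) : (M : ℤ) ≠ 0 := by
  have h1 := h.eM
  have h2 := h.gt
  have : M ≠ 0 := by omega
  exact_mod_cast this

theorem cop_int {d : ℕ} {a b : ℕ} (hs : Squarefree d) (h : d = a * b) :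
    IsCoprime (a : ℤ) (b : ℤ) := by
  rw [h] at hs
  exact Nat.isCoprime_iff_coprime.2 (Nat.coprime_of_squarefree_mul hs)

/-- the residue of the ideal of norm `d` -/
theorem ex_r (h : Hm M d0 e0) {d : ℕ} (hd : d ∣ e0) : ∃ r d' : ℤ, (d0 : ℤ) + r ^ 2 = d * d' ∧
    IsCoprime (d : ℤ) d' ∧ (d : ℤ) ∣ 2 * r := by
  by_cases hdd : d ∣ d0
  · obtain ⟨d', hd'⟩ := hdd
    refine ⟨0, d', by rw [hd']; push_cast; ring, cop_int h.sd hd', by simp⟩
  · rcases h.md with ⟨h4, h1⟩ | ⟨h4, h1⟩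
    · have h2 : 2 ∣ d := by
        by_contra hcon
        have hc : Nat.Coprime d 2 := by
          rw [Nat.coprime_comm]
          exact (Nat.prime_two.coprime_iff_not_dvd).2 hcon
        rw [h1] at hd
        exact hdd (hc.dvd_of_dvd_mul_left hd)
      obtain ⟨a, rfl⟩ := h2
      have ha : a ∣ d0 := by
        rw [h1] at hd
        exact Nat.dvd_of_mul_dvd_mul_left two_pos hd
      obtain ⟨b, hb⟩ := ha
      have hab : a % 4 = b % 4 ∧ a % 2 = 1 := by
        have e1 : (a % 4) * (b % 4) % 4 = 1 := by rw [← Nat.mul_mod, ← hb, h4]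
        have e2 : a % 4 < 4 := Nat.mod_lt _ (by norm_num)
        have e3 : b % 4 < 4 := Nat.mod_lt _ (by norm_num)
        obtain ⟨x, hx⟩ : ∃ x, x = a % 4 := ⟨_, rfl⟩
        obtain ⟨y, hy⟩ : ∃ y, y = b % 4 := ⟨_, rfl⟩
        rw [← hx, ← hy] at e1
        rw [← hx] at e2
        rw [← hy] at e3
        interval_cases x <;> interval_cases y <;> omega
      obtain ⟨c, hc⟩ : ∃ c, a + b = 2 * c := ⟨(a + b) / 2, by omega⟩
      have hc2 : c % 2 = 1 := by omega
      refine ⟨a, c, ?_, ?_, ⟨1, by push_cast; ring⟩⟩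
      · have hc' : (a : ℤ) + b = 2 * c := by exact_mod_cast hc
        rw [hb]
        push_cast
        linear_combination (a : ℤ) * hc'
      · have k1 : IsCoprime (a : ℤ) (b : ℤ) := cop_int h.sd hb
        have k2 : IsCoprime (a : ℤ) (2 * c : ℤ) := by
          have hc' : (2 * c : ℤ) = b + a * 1 := by
            have : (a : ℤ) + b = 2 * c := by exact_mod_cast hc
            linarith
          rw [hc']
          exact IsCoprime.add_mul_left_right_iff.2 k1
        have k3 : IsCoprime (a : ℤ) (c : ℤ) := IsCoprime.of_mul_right_right k2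
        have k4 : IsCoprime (2 : ℤ) (c : ℤ) := by
          refine ⟨-((c / 2 : ℕ) : ℤ), 1, ?_⟩
          have : (c : ℤ) = 2 * ((c / 2 : ℕ) : ℤ) + 1 := by omega
          linarith
        push_cast
        exact IsCoprime.mul_left k4 k3
    · rw [h1] at hd
      exact absurd hd hdd

/-- a vector of norm `M` is twice a pure quaternion -/
theorem half (h : Hm M d0 e0) {v : V3} (hv : bl 5 v v = (M : ℤ)) : ∃ y : QA 5 ℤ,
    pv 5 v = sc 2 * y ∧ tr y = 0 ∧ nr y = d0 := by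
  obtain ⟨z, hz⟩ := exists_half (q := 5) v
  have h1 : 4 * nr z - tr z ^ 2 = 4 * d0 := by
    rw [← nr_pure, ← hz, nr_pv, hv, h.eM]
    push_cast
    rfl
  have h2 : (2 : ℤ) ∣ tr z := by
    have h3 : tr z * tr z % 2 = 0 := by
      have : tr z * tr z = 4 * nr z - 4 * d0 := by linarith
      omega
    rcases Int.emod_two_eq_zero_or_one (tr z) with h4 | h4
    · exact Int.dvd_of_emod_eq_zero h4
    · rw [Int.mul_emod, h4] at h3
      exact absurd h3 (by decide)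
  obtain ⟨τ, hτ⟩ := h2
  have h3 : pv 5 v = sc 2 * (z - sc τ) := by
    rw [hz, hτ, mul_sub, sc_mul]
  refine ⟨z - sc τ, h3, ?_, ?_⟩
  · rw [tr_sub, tr_sc, hτ]
    ring
  · have := congrArg nr h3
    rw [nr_pv, nr_sc_mul, hv, h.eM] at this
    push_cast at this
    linarith

theorem nr_add_sc (y : QA 5 ℤ) (r : ℤ) : nr (y + sc r) = nr y + r * tr y + r ^ 2 := by
  rw [nr_add, cj_sc, nr_sc, ← sc_comm, tr_sc_mul]
  ring

theorem sub_sc (y : QA 5 ℤ) (r : ℤ) : y - sc r = y + sc (-r) := by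
  rw [sc_neg]
  abel

/-- the transport of `v` gives the transport of its half -/
theorem half_tr {v w : V3} {y y' x : QA 5 ℤ} (hy : pv 5 v = sc 2 * y) (hy' : pv 5 w = sc 2 * y')
    (h : x * pv 5 v = pv 5 w * x) : x * y = y' * x := by
  apply sc_cancel (d := 2) two_ne_zero
  rw [← mul_assoc, sc_comm, mul_assoc, ← hy, h, hy', mul_assoc]

theorem exists_rel (hx : S_EXG) (h : Hm M d0 e0) {d : ℕ} (hd : d ∣ e0) (v : VN M) :
    ∃ w : VN M, rel d v.1 w.1 := by
  obtain ⟨y, hy, ht, hn⟩ := half h v.bl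
  obtain ⟨r, d', h1, h2, -⟩ := ex_r h hd
  have hd0 : (0 : ℤ) < d := by exact_mod_cast Nat.pos_of_ne_zero (h.dvd_ne hd)
  obtain ⟨x, s, s', a, k1, -, -, k4⟩ := hx 5 (Or.inr rfl) (y - sc r) d d' hd0 (by
    rw [sub_sc, nr_add_sc, ht, hn, ← h1]
    ring) h2
  obtain ⟨y', hy'⟩ := k4 y (by rw [sub_mul, mul_sub, sc_comm])
  have htr : tr y' = 0 := by
    have e1 := congrArg (fun z => tr (z * cj x)) hy'
    simp only [mul_assoc, mul_cj] at e1
    rw [tr_mul_comm x, mul_assoc, cj_mul_self, ← sc_comm, ← sc_comm, tr_sc_mul, tr_sc_mul, ht,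
      mul_zero, k1] at e1
    exact (mul_eq_zero.1 e1.symm).resolve_left hd0.ne'
  obtain ⟨w, hw⟩ := exists_pv y'
  rw [htr, sc_zero, sub_zero] at hw
  have hr : rel d v.1 w := by
    refine ⟨x, k1, ?_⟩
    rw [hy, hw, ← mul_assoc, ← sc_comm, mul_assoc, hy', mul_assoc]
  refine ⟨⟨w, (vec_mem (Or.inr rfl)).2 ?_⟩, hr⟩
  rw [rel_norm (h.dvd_ne hd) hr, v.bl]

theorem unit_of (hx : S_EXG) (hd : S_DVG) (h : Hm M d0 e0) {d : ℕ} {v w w' : V3}
    (hv : bl 5 v v = (M : ℤ)) (hde : d ∣ e0) {x x' : QA 5 ℤ} (k2 : nr x = d) (l2 : nr x' = d)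
    (k3 : x * pv 5 v = pv 5 w * x) (l3 : x' * pv 5 v = pv 5 w' * x') :
    ∃ u : QA 5 ℤ, nr u = 1 ∧ x' = u * x ∧ u * pv 5 w = pv 5 w' * u := by
  obtain ⟨y, hy, ht, hn⟩ := half h hv
  obtain ⟨r, d', h1, h2, h3⟩ := ex_r h hde
  have hdn := h.dvd_ne hde
  have hd0 : (0 : ℤ) < d := by exact_mod_cast Nat.pos_of_ne_zero hdn
  obtain ⟨x0, s, s', a, m1, m2, -, -⟩ := hx 5 (Or.inr rfl) (y - sc r) d d' hd0 (by
    rw [sub_sc, nr_add_sc, ht, hn, ← h1]
    ring) h2
  have key : ∀ (x : QA 5 ℤ) (w : V3), nr x = d → x * pv 5 v = pv 5 w * x →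
      ∃ u, nr u = 1 ∧ x0 = u * x := by
    intro x w k2 k3
    have hw : bl 5 w w = (M : ℤ) := by
      rw [← hv]
      exact rel_norm hdn ⟨x, k2, k3⟩
    obtain ⟨y', hy', -, -⟩ := half h hw
    have e1 := half_tr hy hy' k3
    have e2 : x * (y + sc r) = (y' + sc r) * x := by
      rw [mul_add, add_mul, e1, sc_comm]
    obtain ⟨z, hz⟩ := hd 5 (Or.inr rfl) d (h.sf.squarefree_of_dvd hde) (h.cop.coprime_dvd_left hde)
      x (y + sc r) (y' + sc r) (by rw [k2]) (by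
        rw [nr_add_sc, ht, hn]
        exact ⟨d', by linarith⟩) (by
        rw [tr_add, ht, tr_sc, zero_add]
        exact h3) e2
    have e3 : y - sc r = -cj z * x := by
      apply sc_cancel hd0.ne'
      have f1 := congrArg cj hz
      have f2 : cj (y + sc r) = -(y - sc r) := by
        rw [cj_eq, tr_add, ht, tr_sc, zero_add, two_mul, sc_add]
        abel
      rw [cj_mul, f2, cj_mul, cj_sc] at f1
      have f3 := congrArg (· * x) f1
      simp only [mul_assoc, cj_mul_self, k2] at f3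
      rw [neg_mul, mul_neg, ← mul_assoc, sc_comm _ (cj z), mul_assoc, ← f3, sc_comm]
      noncomm_ring
    refine ⟨s * -cj z + s' * cj x, ?_, ?_⟩
    · have f1 : x0 = (s * -cj z + s' * cj x) * x := by
        rw [add_mul, mul_assoc, ← e3, mul_assoc, cj_mul_self, k2]
        exact m2
      have f2 : nr x0 = nr (s * -cj z + s' * cj x) * nr x := by rw [← nr_mul, ← f1]
      rw [m1, k2] at f2
      exact (mul_right_cancel₀ hd0.ne' (by rw [one_mul]; exact f2)).symm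
    · rw [add_mul, mul_assoc, ← e3, mul_assoc, cj_mul_self, k2]
      exact m2
  obtain ⟨u1, p1, p2⟩ := key x w k2 k3
  obtain ⟨u2, q1, q2⟩ := key x' w' l2 l3
  have e : x' = cj u2 * u1 * x := by
    rw [mul_assoc, ← p2, q2, ← mul_assoc, cj_mul_self, q1, sc_one, one_mul]
  refine ⟨cj u2 * u1, by rw [nr_mul, nr_cj, p1, q1, one_mul], e, ?_⟩
  have hx0 : x ≠ 0 := ne_zero_of_nr hd0.ne' k2
  apply mul_cancel_right hx0
  rw [mul_assoc, ← k3, ← mul_assoc, ← e, l3, mul_assoc (pv 5 w'), ← e]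

theorem rel_uniq (hx : S_EXG) (hd : S_DVG) (h : Hm M d0 e0) {d : ℕ} {v w w' : V3}
    (hv : bl 5 v v = (M : ℤ)) (hde : d ∣ e0) (k : rel d v w) (k' : rel d v w') : rel 1 w w' := by
  obtain ⟨x, k2, k3⟩ := k
  obtain ⟨x', l2, l3⟩ := k'
  obtain ⟨u, u1, -, u3⟩ := unit_of hx hd h hv hde k2 l2 k3 l3
  exact ⟨u, by rw [u1]; rfl, u3⟩

/-! ### the elements commuting with a vector -/

theorem comm_form (h : Hm M d0 e0) {v : V3} (hv : bl 5 v v = (M : ℤ))
    {z : QA 5 ℤ} {m : ℕ} (hm : nr z = m) (hc : z * pv 5 v = pv 5 v * z) :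
    ∃ a b : ℤ, a ^ 2 + d0 * b ^ 2 = m ∧ (b = 0 → z = sc z.a) := by
  obtain ⟨y, hy, ht, hn⟩ := half h hv
  have hzy : z * y = y * z := half_tr hy hy (by rw [hc]) |>.trans rfl
  obtain ⟨w, hw⟩ := exists_pv z
  have hcomm : pv 5 w * y = y * pv 5 w := by
    rw [hw, sub_mul, mul_sub, mul_assoc, hzy, sc_comm (tr z), ← mul_assoc, ← mul_assoc, sc_comm 2]
  have hcy : cj y = -y := by
    rw [cj_eq, ht, sc_zero, zero_sub]
  have h1 : cj (pv 5 w * y) = pv 5 w * y := by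
    rw [cj_mul, cj_pv, hcy, neg_mul_neg, hcomm]
  have h2 := eq_sc_of_cj h1
  obtain ⟨r, hr⟩ : ∃ r, r = (pv 5 w * y : QA 5 ℤ).a := ⟨_, rfl⟩
  rw [← hr] at h2
  have h3 : bl 5 w w * d0 = r ^ 2 := by
    have := congrArg nr h2
    rw [nr_mul, nr_pv, nr_sc, hn] at this
    rw [this, pow_two]
  obtain ⟨t, ht'⟩ := dvd_of_dvd_sq h.sd (a := r) ⟨bl 5 w w, by rw [← h3, mul_comm]⟩
  have hd0 : (d0 : ℤ) ≠ 0 := by
    have := h.gt
    have : d0 ≠ 0 := by omega
    exact_mod_cast this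
  have key : bl 5 w w = d0 * t ^ 2 := by
    apply mul_right_cancel₀ hd0
    rw [h3, ht']
    ring
  have h4 : bl 5 w w = 4 * m - tr z ^ 2 := by
    rw [← nr_pv, hw, nr_pure, hm]
  have h5 : tr z ^ 2 + d0 * t ^ 2 = 4 * m := by rw [← key, h4]; ring
  have par : tr z % 2 = 0 ∧ t % 2 = 0 := by
    have e : ∀ x : ℤ, (x % 2 = 0 ∧ x ^ 2 % 4 = 0) ∨ (x % 2 = 1 ∧ x ^ 2 % 4 = 1) := by
      intro x
      rcases (show x % 4 = 0 ∨ x % 4 = 1 ∨ x % 4 = 2 ∨ x % 4 = 3 by omega) with k | k | k | k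
      · left
        exact ⟨by omega, by rw [pow_two, Int.mul_emod, k]; rfl⟩
      · right
        exact ⟨by omega, by rw [pow_two, Int.mul_emod, k]; rfl⟩
      · left
        exact ⟨by omega, by rw [pow_two, Int.mul_emod, k]; rfl⟩
      · right
        exact ⟨by omega, by rw [pow_two, Int.mul_emod, k]; rfl⟩
    have hmod : (tr z ^ 2 + d0 * t ^ 2) % 4 = 0 := by rw [h5]; omega
    have hm2 : ((d0 : ℤ) * t ^ 2) % 4 = ((d0 % 4 : ℕ) : ℤ) * (t ^ 2 % 4) % 4 := by
      rw [Int.mul_emod]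
      push_cast
      rw [Int.mul_emod (_ % 4) (t ^ 2 % 4), Int.emod_emod_of_dvd _ dvd_rfl,
        Int.emod_emod_of_dvd _ dvd_rfl]
    rw [Int.add_emod, hm2] at hmod
    rcases e (tr z) with ⟨a1, a2⟩ | ⟨a1, a2⟩ <;> rcases e t with ⟨b1, b2⟩ | ⟨b1, b2⟩ <;>
      rcases h.md with ⟨c1, -⟩ | ⟨c1, -⟩ <;> rw [a2, b2, c1] at hmod <;>
      first | exact ⟨a1, b1⟩ | (exfalso; revert hmod; decide)
  obtain ⟨a, ha⟩ : ∃ a, tr z = 2 * a := ⟨tr z / 2, by omega⟩
  obtain ⟨b, hb⟩ : ∃ b, t = 2 * b := ⟨t / 2, by omega⟩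
  refine ⟨a, b, ?_, ?_⟩
  · rw [ha, hb] at h5
    linarith
  · intro hb0
    have ht0 : t = 0 := by rw [hb, hb0]; rfl
    rw [ht0, zero_pow two_ne_zero, mul_zero, ← nr_pv] at key
    have h5 := nr_eq_zero key
    rw [hw, sub_eq_zero] at h5
    have h6 := congrArg QA.b h5
    have h7 := congrArg QA.c h5
    have h8 := congrArg QA.d h5
    simp at h6 h7 h8
    ext
    · rfl
    · exact h6
    · exact h7
    · exact h8

theorem unit_comm (h : Hm M d0 e0) {v : V3} (hv : bl 5 v v = (M : ℤ)) {u : QA 5 ℤ}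
    (h1 : nr u = 1) (hc : u * pv 5 v = pv 5 v * u) : u = 1 ∨ u = -1 := by
  obtain ⟨a, b, k1, k2⟩ := comm_form h hv (m := 1) (by rw [h1]; rfl) hc
  have h5 : (2 : ℤ) ≤ d0 := by exact_mod_cast h.gt
  have hb : b = 0 := by
    by_contra hb
    have h2 : 1 ≤ b ^ 2 := by
      have := sq_nonneg b
      have : b ^ 2 ≠ 0 := pow_ne_zero 2 hb
      omega
    push_cast at k1
    nlinarith [sq_nonneg a]
  have h2 := k2 hb
  rw [h2, nr_sc] at h1
  have hA : u.a = 1 ∨ u.a = -1 := by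
    rcases Int.isUnit_iff.1 (IsUnit.of_mul_eq_one _ h1) with h | h
    · exact Or.inl h
    · exact Or.inr h
  rw [h2]
  rcases hA with h | h
  · left
    rw [h]
    rfl
  · right
    rw [h]
    rfl

/-- the quaternion of a transport is unique up to the sign -/
theorem uniq_x (hx : S_EXG) (hd : S_DVG) (h : Hm M d0 e0) {d : ℕ} {v w : V3}
    (hv : bl 5 v v = (M : ℤ)) (hde : d ∣ e0) {x x' : QA 5 ℤ} (k2 : nr x = d) (l2 : nr x' = d)
    (k3 : x * pv 5 v = pv 5 w * x) (l3 : x' * pv 5 v = pv 5 w * x') : x' = x ∨ x' = -x := by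
  obtain ⟨u, u1, u2, u3⟩ := unit_of hx hd h hv hde k2 l2 k3 l3
  have hw : bl 5 w w = (M : ℤ) := by
    rw [← hv]
    exact rel_norm (h.dvd_ne hde) ⟨x, k2, k3⟩
  rcases unit_comm h hw u1 u3 with h | h
  · left
    rw [u2, h, one_mul]
  · right
    rw [u2, h, neg_one_mul]

open Classical in
theorem card_class (hx : S_EXG) (hd : S_DVG) (h : Hm M d0 e0) {v : V3}
    (hv : bl 5 v v = (M : ℤ)) :
    ((vec 5 (M : ℤ)).filter fun w => rel 1 v w).card = 3 := by
  have hex : ∀ u : QA 5 ℤ, ∃ w : V3, u ∈ Un → u * pv 5 v = pv 5 w * u := by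
    intro u
    by_cases hu : u ∈ Un
    · obtain ⟨w, hw⟩ := unit_act ((mem_Un u).1 hu) v
      exact ⟨w, fun _ => hw⟩
    · exact ⟨0, fun h => absurd h hu⟩
  choose g hg using hex
  have hrel : ∀ u ∈ Un, rel 1 v (g u) := by
    intro u hu
    exact ⟨u, by rw [(mem_Un u).1 hu]; rfl, hg u hu⟩
  have hmaps : Set.MapsTo g (Un : Set (QA 5 ℤ))
      (((vec 5 (M : ℤ)).filter fun w => rel 1 v w : Finset V3) : Set V3) := by
    intro u hu
    have h1 := hrel u hu
    rw [Finset.mem_coe, Finset.mem_filter, vec_mem (Or.inr rfl)]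
    refine ⟨?_, h1⟩
    rw [rel_norm one_ne_zero h1, hv]
  have key := Finset.card_eq_sum_card_fiberwise hmaps
  have hfib : ∀ w ∈ (vec 5 (M : ℤ)).filter (fun w => rel 1 v w),
      (Un.filter fun u => g u = w).card = 2 := by
    intro w hw
    rw [Finset.mem_filter] at hw
    obtain ⟨u0, k2, k3⟩ := hw.2
    have hu0 : u0 ∈ Un := (mem_Un _).2 (by rw [k2]; rfl)
    have hne : u0 ≠ 0 := ne_zero_of_nr (d := ((1 : ℕ) : ℤ)) (by norm_num) k2
    have hgw : ∀ u ∈ Un, u * pv 5 v = pv 5 w * u → g u = w := by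
      intro u hu h
      have hu1 : u ≠ 0 := ne_zero_of_nr one_ne_zero ((mem_Un u).1 hu)
      apply pv_injective (q := 5)
      apply mul_cancel_right hu1
      rw [← hg u hu, h]
    have hset : Un.filter (fun u => g u = w) = {u0, -u0} := by
      ext u
      rw [Finset.mem_filter, Finset.mem_insert, Finset.mem_singleton]
      constructor
      · rintro ⟨hu', hgu⟩
        have h1 := (mem_Un u).1 hu'
        have h2' := hg u hu'
        rw [hgu] at h2'
        exact uniq_x hx hd h hv (one_dvd e0) k2 (by rw [h1]; rfl) k3 h2'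
      · rintro (h | h)
        · rw [h]
          exact ⟨hu0, hgw u0 hu0 k3⟩
        · have hu' : -u0 ∈ Un := by
            rw [mem_Un, nr_neg, k2]
            rfl
          rw [h]
          refine ⟨hu', hgw _ hu' ?_⟩
          rw [neg_mul, mul_neg, k3]
    rw [hset, Finset.card_pair]
    intro h
    apply hne
    have h5 : sc (2 : ℤ) * u0 = sc 2 * 0 := by
      have e1 : (sc 2 : QA 5 ℤ) * u0 = u0 + u0 := by
        ext <;> simp <;> ring
      rw [e1, mul_zero]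
      nth_rewrite 2 [h]
      rw [add_neg_cancel]
    exact sc_cancel two_ne_zero h5
  rw [Finset.sum_congr rfl hfib, Finset.sum_const, card_Un, smul_eq_mul] at key
  omega

section

variable (hx : S_EXG) (hd : S_DVG) (h : Hm M d0 e0)

include hx hd h in
theorem TT_spec {d : ℕ} (hde : d ∣ e0) (v w : VN M) : TT M d (cl v) = cl w ↔ rel d v.1 w.1 := by
  have hex := exists_rel hx h hde (rep (cl v))
  have hT : TT M d (cl v) = cl hex.choose := by
    unfold TT
    exact dif_pos hex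
  have hch := hex.choose_spec
  have hrep : rel 1 v.1 (rep (cl v)).1 := (cl_eq _ _).1 (cl_rep (cl v)).symm
  have h3 : rel d v.1 hex.choose.1 := by
    have := rel_trans hrep hch
    rwa [mul_one] at this
  rw [hT, cl_eq]
  constructor
  · intro h
    have := rel_trans h3 h
    rwa [one_mul] at this
  · intro h'
    exact rel_uniq hx hd h v.bl hde h3 h'

include hx hd h in
theorem TT_eq {d : ℕ} (hde : d ∣ e0) (v : VN M) : ∃ w : VN M, TT M d (cl v) = cl w ∧
    rel d v.1 w.1 := by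
  obtain ⟨w, hw⟩ := cl_surj (TT M d (cl v))
  exact ⟨w, hw, (TT_spec hx hd h hde v w).1 hw⟩

include hx hd h in
theorem TT_one (ω : Om M) : TT M 1 ω = ω := by
  obtain ⟨v, rfl⟩ := cl_surj ω
  exact (TT_spec hx hd h (one_dvd e0) v v).2 (rel_refl _)

include hx hd h in
theorem TT_mul {d d' : ℕ} (hdd : d * d' ∣ e0) (ω : Om M) :
    TT M d (TT M d' ω) = TT M (d * d') ω := by
  obtain ⟨v, rfl⟩ := cl_surj ω
  have hd1 : d ∣ e0 := (Dvd.intro _ rfl).trans hdd
  have hd2 : d' ∣ e0 := (Dvd.intro_left _ rfl).trans hdd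
  obtain ⟨w, hw, hr⟩ := TT_eq hx hd h hd2 v
  obtain ⟨z, hz, hr'⟩ := TT_eq hx hd h hd1 w
  rw [hw, hz]
  symm
  rw [TT_spec hx hd h hdd]
  exact rel_trans hr hr'

include hx hd h in
theorem TT_TT {d : ℕ} (hde : d ∣ e0) (ω : Om M) : TT M d (TT M d ω) = ω := by
  obtain ⟨v, rfl⟩ := cl_surj ω
  obtain ⟨w, hw, hr⟩ := TT_eq hx hd h hde v
  rw [hw, TT_spec hx hd h hde]
  exact rel_symm hr

include hx hd h in
theorem TT_Rh {d : ℕ} (hde : d ∣ e0) (ω : Om M) : TT M d (Rh ω) = Rh (TT M d ω) := by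
  obtain ⟨v, rfl⟩ := cl_surj ω
  obtain ⟨w, hw, hr⟩ := TT_eq hx hd h hde v
  rw [hw, Rh_cl, Rh_cl, TT_spec hx hd h hde]
  exact rel_rv hr

include hx hd h in
theorem TT_Nu {d : ℕ} (hde : d ∣ e0) (ω : Om M) : TT M d (Nu ω) = Nu (TT M d ω) := by
  obtain ⟨v, rfl⟩ := cl_surj ω
  obtain ⟨w, hw, hr⟩ := TT_eq hx hd h hde v
  rw [hw, Nu_cl, Nu_cl, TT_spec hx hd h hde]
  exact rel_neg hr

include hx hd h in
theorem card_fib (ω : Om M) : Nat.card {v : VN M // cl v = ω} = 3 := by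
  classical
  obtain ⟨v0, rfl⟩ := cl_surj ω
  rw [← card_class hx hd h v0.bl, ← card_VN]
  exact Nat.card_congr (Equiv.subtypeEquivRight fun v => by
    rw [cl_eq]
    exact ⟨rel_symm, rel_symm⟩)

include hx hd h in
theorem card_om (Q : Om M → Prop) :
    Nat.card {v : VN M // Q (cl v)} = 3 * Nat.card {ω : Om M // Q ω} := by
  classical
  have hfin : Fintype {ω : Om M // Q ω} := Fintype.ofFinite _
  let e : {v : VN M // Q (cl v)} ≃ Σ ω : {ω : Om M // Q ω}, {v : VN M // cl v = ω.1} :=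
    { toFun := fun v => ⟨⟨cl v.1, v.2⟩, ⟨v.1, rfl⟩⟩
      invFun := fun p => ⟨p.2.1, by rw [p.2.2]; exact p.1.2⟩
      left_inv := fun v => rfl
      right_inv := fun p => by
        obtain ⟨⟨ω, hω⟩, ⟨v, hv⟩⟩ := p
        dsimp only at hv
        subst hv
        rfl }
  rw [Nat.card_congr e, Nat.card_sigma]
  rw [Finset.sum_congr rfl fun ω _ => card_fib hx hd h ω.1]
  rw [Finset.sum_const, Finset.card_univ, smul_eq_mul, mul_comm, Nat.card_eq_fintype_card]

open Classical in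
include hx hd h in
theorem card_om' (Q : Om M → Prop) (P : V3 → Prop) (hPQ : ∀ v : VN M, Q (cl v) ↔ P v.1) :
    ((vec 5 (M : ℤ)).filter P).card = 3 * Nat.card {ω : Om M // Q ω} := by
  rw [← card_om hx hd h Q, ← card_VN]
  exact Nat.card_congr (Equiv.subtypeEquivRight fun v => (hPQ v).symm)

end

end Pool.Agent.XW.Cl
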