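import Pool.Agent.XW.Defs
import Pool.Agent.XV.T3.Cl
import Pool.Agent.XV.PCStm

/-!
# Project XW, T3: the class number side for the even discriminants: statements

`2 ∈ N` everywhere.  The vectors `v` of norm `pe δ N` (divisible by `4`) are `pv q v = 2 y` with a pure
quaternion `y` of norm `pe δ N / 4`, which is squarefree.  `pr D` is the product of the primes of `D`.
-/

set_option autoImplicit false

namespace Pool.Agent.XW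

open Finset
open Pool.Agent.Z700 (V3 pr)
open Pool.Agent.NH1 (rd)
open Pool.Agent.XV (bl vec ph Ph QA pv cpg)
open Pool.Agent.XV.QA (nr tr sc cj)

noncomputable section

/-- EXG: an element `y` of norm `d d'`, `(d, d') = 1`: the left ideal `O y + O d` is `O x`, `N(x) = d`;
every `z` commuting with `y` is transported by `x` into the order -/
def S_EXG : Prop := ∀ q : ℕ, (q = 3 ∨ q = 5) → ∀ (y : QA q ℤ) (d d' : ℤ), 0 < d →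
  nr y = d * d' → IsCoprime d d' → ∃ (x s s' a : QA q ℤ), nr x = d ∧ x = s * y + s' * sc d ∧
  y = a * x ∧ ∀ z : QA q ℤ, y * z = z * y → ∃ z' : QA q ℤ, x * z = z' * x

/-- DVG: if `d` divides `N (x)`, `N (v)`, `Tr (v)` and `x v = w x` then `d` divides `x v` -/
def S_DVG : Prop := ∀ q : ℕ, (q = 3 ∨ q = 5) → ∀ d : ℕ, Squarefree d → Nat.Coprime d 15 →
  ∀ x v w : QA q ℤ, (d : ℤ) ∣ nr x → (d : ℤ) ∣ nr v → (d : ℤ) ∣ tr v → x * v = w * x →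
  ∃ y : QA q ℤ, x * v = sc (d : ℤ) * y

/-- PCGe: the number of pairs of vectors with a given Gram matrix, even discriminants -/
def S_PCGe : Prop := ∀ δ : ℤ, Dt δ → ∀ N : Finset ℕ, Pe N → 2 ∈ N → ∀ (m b : ℤ) (D : ℕ), 0 < D →
  (4 : ℤ) ∣ m → 4 * (D : ℤ) = pe δ N * m - b ^ 2 →
  (Jb δ N → (cpg 5 (pe δ N) b m : ℤ) = if Odd (D.factorization 5) then
    6 * ∏ l ∈ D.primeFactors.erase 5, fc (pe δ N) D l else 0) ∧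
  (Jd δ N → (cpg 3 (pe δ N) b m : ℤ) = if Odd (D.factorization 3) then
    12 * ∏ l ∈ D.primeFactors.erase 3, fc (pe δ N) D l else 0)

/-- H5: the number of orthogonal pairs of vectors -/
def S_H5e : Prop := ∀ δ : ℤ, Dt δ → ∀ N : Finset ℕ, Pe N → 2 ∈ N → Jb δ N → ∀ D ⊆ N,
  (∀ p ∈ N.erase 2, gen δ N D p = jacobiSym (-5) p) →
  cpg 5 (pe δ N : ℤ) 0 (20 * (pr D : ℤ)) = 6 * 2 ^ N.card

/-- CHN: the change of the characters -/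
def S_CHNe : Prop := ∀ δ : ℤ, Dt δ → ∀ q : ℕ, (q = 3 ∨ q = 5) → ∀ N : Finset ℕ, Pe N → 2 ∈ N →
  ∀ D ⊆ N, ∀ (x : QA q ℤ) (v w : V3), bl q v v = (pe δ N : ℤ) → nr x = (pr D : ℤ) →
  x * pv q v = pv q w * x →
  (∀ p ∈ N.erase 2, ph q p (rd p w) = gen δ N D p * ph q p (rd p v)) ∧
  om q (pe δ N) w = om q (pe δ N) v

/-- OMT: the orientation is preserved by all transports of norm prime to `q` -/
def S_OMT : Prop := ∀ q : ℕ, (q = 3 ∨ q = 5) → ∀ (M : ℕ) (x : QA q ℤ) (v w : V3),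
  ¬ (q : ℤ) ∣ nr x → x * pv q v = pv q w * x → om q M w = om q M v

/-- OMN: the orientation of `- v` (and it is `1` or `-1`) -/
def S_OMN : Prop := ∀ δ : ℤ, Dt δ → ∀ q : ℕ, (q = 3 ∨ q = 5) → ∀ N : Finset ℕ, Pe N → 2 ∈ N →
  (q = 5 → Jb δ N) → (q = 3 → Jd δ N) → ∀ v ∈ vec q (pe δ N : ℤ),
  om q (pe δ N) (-v) = - om q (pe δ N) v

/-- EQU: the characters are equidistributed -/
def S_EQUe : Prop := ∀ δ : ℤ, Dt δ → ∀ q : ℕ, (q = 3 ∨ q = 5) → ∀ N : Finset ℕ, Pe N → 2 ∈ N →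
  (q = 5 → Jb δ N) → (q = 3 → Jd δ N) → ∀ γ : ℕ → ℤ, (∀ p ∈ N, γ p = 1 ∨ γ p = -1) →
  2 ^ N.card * Nat.card {v : V3 // v ∈ vec q (pe δ N : ℤ) ∧ ∀ p ∈ N, gm δ q N p v = γ p} =
    (vec q (pe δ N : ℤ)).card

/-- V4 for `2 ∈ N` -/
def S_V4e : Prop := ∀ δ : ℤ, Dt δ → ∀ q : ℕ, (q = 3 ∨ q = 5) → ∀ N : Finset ℕ, Pe N → 2 ∈ N →
  (q = 5 → Jb δ N) → (q = 3 → Jd δ N) → ∀ P ⊆ N, P.Nonempty → ∑ v ∈ vec q (pe δ N : ℤ), Pt δ q N P v = 0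

/-- V3 for `2 ∈ N` -/
def S_V3e : Prop := ∀ δ : ℤ, Dt δ → ∀ N : Finset ℕ, Pe N → 2 ∈ N → Jd δ N → ¬ Xi δ N →
  ∃ T : ℤ, ((vec 3 (pe δ N : ℤ)).card : ℤ) = 6 * 2 ^ N.card * T

/-- V5 for `2 ∈ N` -/
def S_V5e : Prop := ∀ δ : ℤ, Dt δ → ∀ N : Finset ℕ, Pe N → 2 ∈ N → Jb δ N →
  ∃ T : ℤ, ((vec 5 (pe δ N : ℤ)).card : ℤ) = 2 ^ N.card * T ∧ (Odd T ↔ Kr δ N)

/-- the operators on the classes of the vectors of `L 5` of norm `pe δ N` modulo the units; `χ ω 2` is the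
orientation -/
def Ops5e (δ : ℤ) (N : Finset ℕ) (T0 : ℤ) : Prop :=
  ∃ (Ω : Type) (_ : Fintype Ω) (_ : DecidableEq Ω) (T : Finset ℕ → Ω → Ω) (ρ ν : Ω → Ω)
    (χ : Ω → ℕ → ℤ),
    (∀ ω, T ∅ ω = ω) ∧
    (∀ D ⊆ N, ∀ D' ⊆ N, ∀ ω, T D (T D' ω) = T (symmDiff D D') ω) ∧
    (∀ ω, ρ (ρ ω) = ω ∧ ν (ν ω) = ω ∧ ρ (ν ω) = ν (ρ ω)) ∧
    (∀ D ⊆ N, ∀ ω, T D (ρ ω) = ρ (T D ω) ∧ T D (ν ω) = ν (T D ω)) ∧
    (∀ D ⊆ N, ∀ ω, (∀ p ∈ N.erase 2, χ (T D ω) p = gen δ N D p * χ ω p) ∧ χ (T D ω) 2 = χ ω 2) ∧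
    (∀ ω, (∀ p ∈ N.erase 2, χ (ρ ω) p = jacobiSym 5 p * χ ω p ∧
      χ (ν ω) p = jacobiSym (-1) p * χ ω p) ∧ χ (ρ ω) 2 = - χ ω 2 ∧ χ (ν ω) 2 = - χ ω 2 ∧
      ∀ p ∈ N, χ ω p = 1 ∨ χ ω p = -1) ∧
    (∀ γ : ℕ → ℤ, (∀ p ∈ N, γ p = 1 ∨ γ p = -1) →
      3 * (Nat.card {ω : Ω // ∀ p ∈ N, χ ω p = γ p} : ℤ) = T0) ∧
    (∀ D ⊆ N, ¬ (D = ∅ ∨ D = if δ = -4 then N.erase 2 else N) → ∀ ω, T D ω ≠ ω) ∧
    (∀ D ⊆ N, (∀ p ∈ N.erase 2, gen δ N D p = jacobiSym (-5) p) →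
      Nat.card {ω : Ω // ν (ρ (T D ω)) = ω} = 2 ^ N.card)

/-- OPS: existence of the operators -/
def S_OPSe : Prop := ∀ δ : ℤ, Dt δ → ∀ N : Finset ℕ, Pe N → 2 ∈ N → Jb δ N → ∀ T : ℤ,
  ((vec 5 (pe δ N : ℤ)).card : ℤ) = 2 ^ N.card * T → Ops5e δ N T

end

end Pool.Agent.XW
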