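import Pool.Agent.XW.T3.Cl
import Pool.Agent.XW.T3.H5
import Pool.Agent.XV.T3.Ops

/-!
# Project XW, T3: the operators on the classes of the vectors of `L 5`, even discriminants (helper2)

Port of `XV/T3/Ops.lean` (helper87).
-/

set_option autoImplicit false

namespace Pool.Agent.XW.Cl

open Finset
open Pool.Agent.Z700 (V3 pr)
open Pool.Agent.NH1 (lz rd)
open Pool.Agent.XV (bl vec QA pv ph Ph ph_spec cpg S_PHI S_CH)
open Pool.Agent.XV.QA
open Pool.Agent.XV.T3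
open Pool.Agent.XV.T3.Cl hiding unit_of tp_of rel_uniq comm_form unit_comm uniq_x card_class
  exists_rel TT_spec TT_eq TT_one TT_mul TT_TT TT_Rh TT_Nu card_fib card_om card_om' cop_of
  no_fix uniq_rv not_dvd rd_ne chi chi_cl chi_TT chi_Rh chi_Nu chi_pm pr_squarefree hn_of nt_odd
open Pool.Agent.XW.H5x

/-! ### the numbers -/

theorem pe_eq {δ : ℤ} {N : Finset ℕ} (h2 : 2 ∈ N) : pe δ N = δ.natAbs * pr (N.erase 2) := by
  unfold pe
  rw [← Finset.mul_prod_erase N (fun x => md δ x) h2]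
  congr 1
  unfold Pool.Agent.Z700.pr
  refine Finset.prod_congr rfl fun p hp => ?_
  unfold md
  rw [if_neg (Finset.ne_of_mem_erase hp)]

theorem sg_eq {δ : ℤ} {N : Finset ℕ} (hN : Pe N) (h2 : 2 ∈ N) :
    sg δ N = c2 δ (-1) * jacobiSym (-1) (pr (N.erase 2)) := by
  unfold sg ch
  rw [← Finset.mul_prod_erase N (fun x => sy δ x (-1)) h2]
  congr 1
  unfold Pool.Agent.Z700.pr
  have h3 : ∀ S : Finset ℕ, (∀ p ∈ S, p ≠ 2 ∧ p ≠ 0) →
      ∏ p ∈ S, sy δ p (-1) = jacobiSym (-1) (∏ p ∈ S, p) := by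
    intro S
    induction S using Finset.induction_on with
    | empty =>
      intro _
      rw [Finset.prod_empty, Finset.prod_empty, jacobiSym.one_right]
    | insert a s ha ih =>
      intro hS
      have h4 : ∏ p ∈ s, p ≠ 0 :=
        Finset.prod_ne_zero_iff.2 fun p hp => (hS p (Finset.mem_insert_of_mem hp)).2
      have h5 := hS a (Finset.mem_insert_self a s)
      rw [Finset.prod_insert ha, Finset.prod_insert ha, jacobiSym.mul_right' _ h5.2 h4,
        ih fun p hp => hS p (Finset.mem_insert_of_mem hp)]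
      unfold sy
      rw [if_neg h5.1]
  exact h3 _ fun p hp => ⟨Finset.ne_of_mem_erase hp, (hN p (Finset.mem_of_mem_erase hp)).1.ne_zero⟩

/-- the exceptional ambiguous ideal -/
def Nn (δ : ℤ) (N : Finset ℕ) : Finset ℕ := if δ = -4 then N.erase 2 else N

theorem Hm_of {δ : ℤ} (hδ : Dt δ) {N : Finset ℕ} (hN : Pe N) (h2 : 2 ∈ N) (hJ : Jb δ N) :
    ∃ d0, Hm (pe δ N) d0 (pr N) ∧ d0 = pr (Nn δ N) := by
  have hod : pr (N.erase 2) % 2 = 1 := by
    have h3 : ¬ 2 ∣ pr (N.erase 2) := by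
      rw [dvd_pr (fun p hp => hN p (Finset.mem_of_mem_erase hp)) Nat.prime_two]
      exact Finset.notMem_erase 2 N
    omega
  have hpr : pr N = 2 * pr (N.erase 2) := pr_erase h2
  have hcop : Nat.Coprime (pr N) 15 := by
    have h3 : Nat.Coprime (pr N) 3 := by
      rw [Nat.coprime_comm]
      exact (Nat.Prime.coprime_iff_not_dvd Nat.prime_three).2 fun h =>
        (hN 3 ((dvd_pr hN Nat.prime_three).1 h)).2.1 rfl
    have h5 : Nat.Coprime (pr N) 5 := by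
      rw [Nat.coprime_comm]
      exact (Nat.Prime.coprime_iff_not_dvd Nat.prime_five).2 fun h =>
        (hN 5 ((dvd_pr hN Nat.prime_five).1 h)).2.2 rfl
    exact Nat.Coprime.mul_right h3 h5
  have hpe := pe_eq (δ := δ) h2
  have hsg := sg_eq (δ := δ) hN h2
  obtain ⟨hJ1, hJ2, -⟩ := hJ
  refine ⟨pr (Nn δ N), ?_, rfl⟩
  rcases hδ with rfl | rfl | rfl
  · have e1 : Nn (-4) N = N.erase 2 := if_pos rfl
    rw [e1]
    have e2 : pe (-4) N = 4 * pr (N.erase 2) := hpe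
    have e3 : pr (N.erase 2) % 4 = 1 := by
      rw [hJ1] at hsg
      have e4 : c2 (-4) (-1) = -1 := by
        unfold c2
        rw [if_pos rfl]
        rfl
      rw [e4, neg_one_mul, neg_inj, jacobiSym.at_neg_one (Nat.odd_iff.2 hod)] at hsg
      rcases (show pr (N.erase 2) % 4 = 1 ∨ pr (N.erase 2) % 4 = 3 by omega) with h | h
      · exact h
      · exfalso
        rw [ZMod.χ₄_nat_three_mod_four h] at hsg
        exact absurd hsg (by decide)
    refine ⟨e2, pr_sqf hN, hcop, ?_, Or.inl ⟨e3, hpr⟩⟩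
    omega
  · have e1 : Nn 8 N = N := if_neg (by decide)
    rw [e1]
    have e2 : pe 8 N = 8 * pr (N.erase 2) := hpe
    refine ⟨by rw [e2, hpr]; ring, pr_sqf hN, hcop, ?_, Or.inr ⟨?_, rfl⟩⟩
    · omega
    · omega
  · have e1 : Nn (-8) N = N := if_neg (by decide)
    rw [e1]
    have e2 : pe (-8) N = 8 * pr (N.erase 2) := hpe
    refine ⟨by rw [e2, hpr]; ring, pr_sqf hN, hcop, ?_, Or.inr ⟨?_, rfl⟩⟩
    · omega
    · omega

theorem pr_inj {N D D' : Finset ℕ} (hN : Pe N) (hD : D ⊆ N) (hD' : D' ⊆ N) (h : pr D = pr D') :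
    D = D' := by
  rw [← pr_primeFactors (N := D) fun p hp => hN p (hD hp), h,
    pr_primeFactors fun p hp => hN p (hD' hp)]

variable {M d0 : ℕ}

/-- the operators have no fixed points -/
theorem no_fix {N N0 D : Finset ℕ} (hN : Pe N) (h : Hm M d0 (pr N)) (hN0 : N0 ⊆ N)
    (hd0 : d0 = pr N0) (hD : D ⊆ N) {v : V3}
    (hv : bl 5 v v = (M : ℤ)) (hr : rel (pr D) v v) : D = ∅ ∨ D = N0 := by
  obtain ⟨z, k2, k3⟩ := hr
  obtain ⟨a, b, l1, l2⟩ := comm_form h hv k2 k3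
  have hDs : Squarefree (pr D) := pr_sqf fun p hp => hN p (hD hp)
  by_cases hb : b = 0
  · left
    rw [hb, zero_pow two_ne_zero, mul_zero, add_zero] at l1
    have h1 : (pr D : ℤ) = a.natAbs * a.natAbs := by
      rw [← l1, pow_two, ← Int.natAbs_mul_self' a]
    have h2 : a.natAbs * a.natAbs ∣ pr D := ⟨1, by rw [mul_one]; exact_mod_cast h1⟩
    have h3 := Nat.isUnit_iff.1 (hDs _ h2)
    rw [h3] at h1
    exact pr_one (fun p hp => (hN p (hD hp)).1) (by exact_mod_cast h1)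
  · right
    have hb2 : 1 ≤ b ^ 2 := by
      have := sq_nonneg b
      have : b ^ 2 ≠ 0 := pow_ne_zero 2 hb
      omega
    have hgt := h.gt
    have hge : d0 ≤ pr D := by
      have : (d0 : ℤ) ≤ pr D := by nlinarith [sq_nonneg a]
      exact_mod_cast this
    have hdv : pr D ∣ pr N := pr_dvd hD
    apply pr_inj hN hD hN0
    rw [← hd0]
    rcases h.md with ⟨h4, h1⟩ | ⟨h4, h1⟩
    · rw [h1] at hdv
      obtain ⟨k, hk⟩ := hdv
      have hk2 : k = 0 ∨ k = 1 ∨ k = 2 ∨ 3 ≤ k := by omega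
      rcases hk2 with hk2 | hk2 | hk2 | hk2
      · rw [hk2] at hk
        omega
      · exfalso
        rw [hk2, mul_one] at hk
        rw [← hk] at l1
        obtain ⟨c, hc⟩ := dvd_of_dvd_sq h.sd (a := a) ⟨2 - b ^ 2, by push_cast at l1; linarith⟩
        have hd : (d0 : ℤ) ≠ 0 := by omega
        have key : (d0 : ℤ) * c ^ 2 + b ^ 2 = 2 := by
          apply mul_left_cancel₀ hd
          rw [hc] at l1
          push_cast at l1
          linarith
        have hd5 : (5 : ℤ) ≤ d0 := by omega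
        have hc0 : c = 0 := by
          by_contra hc0
          have : 1 ≤ c ^ 2 := by
            have := sq_nonneg c
            have : c ^ 2 ≠ 0 := pow_ne_zero 2 hc0
            omega
          nlinarith
        rw [hc0] at key
        rcases Pool.Agent.XV.T3.Cl.sq_cases b with h | h | h <;> [exact hb h; omega; omega]
      · rw [hk2] at hk
        omega
      · have : pr D * 3 ≤ pr D * k := Nat.mul_le_mul_left _ hk2
        omega
    · rw [h1] at hdv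
      exact Nat.le_antisymm (Nat.le_of_dvd (by omega) hdv) hge

/-! ### fixed points and orthogonal pairs -/

theorem uniq_rv (hx : S_EXG) (hd : S_DVG) {e0 d : ℕ} (h : Hm M d0 e0) {v : V3}
    (hv : bl 5 v v = (M : ℤ)) (hdn : d ∣ e0) {Y Y' : V3} (hY : Y ∈ vec 5 (20 * (d : ℤ)))
    (hY' : Y' ∈ vec 5 (20 * (d : ℤ))) (h0 : bl 5 v Y = 0) (h0' : bl 5 v Y' = 0) :
    Y' = Y ∨ Y' = -Y := by
  have key : ∀ Y ∈ vec 5 (20 * (d : ℤ)), bl 5 v Y = 0 → ∃ x : QA 5 ℤ, pv 5 Y = sc 2 * (jj * x) ∧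
      nr x = d ∧ x * pv 5 v = pv 5 (rv (-v)) * x := by
    intro Y hY h0
    rw [vec_mem (Or.inr rfl)] at hY
    obtain ⟨y, h1, h2⟩ := half_exists (m := 5 * (d : ℤ)) (by rw [hY]; ring)
    obtain ⟨x, hx⟩ := exists_jj (y := y) ⟨d, h2⟩
    refine ⟨x, by rw [hx]; exact h1, ?_, ?_⟩
    · rw [← hx, nr_mul, nr_jj] at h2
      linarith
    · rw [jj_anti, hx]
      exact (anti_half h1).2 h0
  obtain ⟨x, k1, k2, k3⟩ := key Y hY h0
  obtain ⟨x', l1, l2, l3⟩ := key Y' hY' h0'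
  rcases uniq_x hx hd h hv hdn k2 l2 k3 l3 with h | h
  · left
    apply pv_injective (q := 5)
    rw [k1, l1, h]
  · right
    apply pv_injective (q := 5)
    rw [pv_neg, k1, l1, h, mul_neg, mul_neg]

/-! ### characters -/

theorem sq_pe {δ : ℤ} (hδ : Dt δ) {N : Finset ℕ} (hN : Pe N) {p : ℕ} (hp : p ∈ N.erase 2) :
    ¬ p * p ∣ pe δ N := by
  have hp1 := Finset.mem_of_mem_erase hp
  rw [pe_erase hp1 (Finset.ne_of_mem_erase hp)]
  intro h
  have h1 : p ∣ pe δ (N.erase p) := Nat.dvd_of_mul_dvd_mul_left (hN p hp1).1.pos h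
  rw [dvd_pe hδ (fun q hq => hN q (Finset.mem_of_mem_erase hq)) (hN p hp1).1] at h1
  exact Finset.notMem_erase p N h1

theorem not_dvd {δ : ℤ} (hδ : Dt δ) {N : Finset ℕ} (hN : Pe N) {v : V3}
    (hv : bl 5 v v = (pe δ N : ℤ)) {p : ℕ} (hp : p ∈ N.erase 2) : ¬ ∀ i, (p : ℤ) ∣ v i := by
  intro h1
  have h3 : ((p * p : ℕ) : ℤ) ∣ (pe δ N : ℤ) := by
    obtain ⟨a, ha⟩ := h1 0
    obtain ⟨b, hb⟩ := h1 1
    obtain ⟨c, hc⟩ := h1 2
    rw [← hv, bl5 rfl, ha, hb, hc]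
    refine ⟨3 * (a * a) + 7 * (b * b) + 7 * (c * c) - (a * b + b * a) + (a * c + c * a) +
      3 * (b * c + c * b), ?_⟩
    push_cast
    ring
  exact sq_pe hδ hN hp (by exact_mod_cast h3)

theorem rd_ne {δ : ℤ} (hδ : Dt δ) {N : Finset ℕ} (hN : Pe N) {v : V3}
    (hv : bl 5 v v = (pe δ N : ℤ)) {p : ℕ} (hp : p ∈ N.erase 2) :
    rd p v ≠ 0 ∧ bl 5 (rd p v) (rd p v) = 0 := by
  have hp1 := Finset.mem_of_mem_erase hp
  have hpn : p ∣ pe δ N := (dvd_pe hδ hN (hN p hp1).1).2 hp1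
  constructor
  · intro h
    apply not_dvd hδ hN hv hp
    intro i
    have h2 := congrFun h i
    unfold Pool.Agent.NH1.rd at h2
    exact (ZMod.intCast_zmod_eq_zero_iff_dvd _ _).1 h2
  · rw [rd_bl, hv]
    push_cast
    exact (ZMod.natCast_eq_zero_iff _ _).2 hpn

/-- the characters of a class -/
noncomputable def chi {n : ℕ} (ω : Om n) (p : ℕ) : ℤ :=
  if p = 2 then om 5 n (rep ω).1 else ph 5 p (rd p (rep ω).1)

theorem om_pm (q M : ℕ) (v : V3) : om q M v = 1 ∨ om q M v = -1 := by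
  unfold om
  generalize (if q = 5 ∧ M % 5 = 2 then (2 : ℤ) else 1) = c
  split_ifs
  · exact Or.inl rfl
  · exact Or.inr rfl

theorem om_rv (M : ℕ) (v : V3) : om 5 M (rv v) = om 5 M (-v) := by
  have h : ∀ c : ℤ, (5 : ℤ) ∣ el 5 (rv v) - c ↔ (5 : ℤ) ∣ el 5 (-v) - c := by
    intro c
    unfold el
    rw [if_pos rfl, if_pos rfl, rv_0, rv_1, rv_2, Pi.neg_apply, Pi.neg_apply, Pi.neg_apply]
    omega
  unfold om
  have h1 : ((5 : ℕ) : ℤ) = 5 := rfl
  rw [h1]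
  simp only [h]

section

variable {δ : ℤ} {N : Finset ℕ} (hδ : Dt δ) (hN : Pe N) (h2 : 2 ∈ N) (h0 : S_PHI) (hc : S_CH)
  (hcn : S_CHNe)

include hcn hδ hN h2 in
theorem chi_cl' (v : VN (pe δ N)) : (∀ p ∈ N.erase 2, chi (cl v) p = ph 5 p (rd p v.1)) ∧
    chi (cl v) 2 = om 5 (pe δ N) v.1 := by
  have hr : rel 1 v.1 (rep (cl v)).1 := (cl_eq _ _).1 (cl_rep (cl v)).symm
  obtain ⟨x, k2, k3⟩ := hr
  have h4 := hcn δ hδ 5 (Or.inr rfl) N hN h2 ∅ (Finset.empty_subset _) x v.1 (rep (cl v)).1 v.bl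
    (by rw [k2, pr_empty]) k3
  constructor
  · intro p hp
    unfold chi
    rw [if_neg (Finset.ne_of_mem_erase hp), h4.1 p hp]
    have h5 : gen δ N ∅ p = 1 := by
      unfold gen
      rw [if_neg (Finset.notMem_empty _), Finset.prod_empty, Nat.cast_one, jacobiSym.one_left]
    rw [h5, one_mul]
  · unfold chi
    rw [if_pos rfl, h4.2]

include hcn hδ hN h2 in
theorem chi_cl (v : VN (pe δ N)) {p : ℕ} (hp : p ∈ N.erase 2) :
    chi (cl v) p = ph 5 p (rd p v.1) := (chi_cl' hδ hN h2 hcn v).1 p hp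

include hcn hδ hN h2 in
theorem chi_cl2 (v : VN (pe δ N)) : chi (cl v) 2 = om 5 (pe δ N) v.1 :=
  (chi_cl' hδ hN h2 hcn v).2

include hcn hδ hN h2 in
theorem chi_TT (hx : S_EXG) (hd : S_DVG) {d0 : ℕ} (h : Hm (pe δ N) d0 (pr N)) {D : Finset ℕ}
    (hD : D ⊆ N) (ω : Om (pe δ N)) :
    (∀ p ∈ N.erase 2, chi (TT (pe δ N) (pr D) ω) p = gen δ N D p * chi ω p) ∧
    chi (TT (pe δ N) (pr D) ω) 2 = chi ω 2 := by
  obtain ⟨v, rfl⟩ := cl_surj ω
  obtain ⟨w, hw, x, k2, k3⟩ := TT_eq hx hd h (pr_dvd hD) v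
  have h4 := hcn δ hδ 5 (Or.inr rfl) N hN h2 D hD x v.1 w.1 v.bl k2 k3
  rw [hw]
  constructor
  · intro p hp
    rw [chi_cl hδ hN h2 hcn w hp, chi_cl hδ hN h2 hcn v hp]
    exact h4.1 p hp
  · rw [chi_cl2 hδ hN h2 hcn w, chi_cl2 hδ hN h2 hcn v]
    exact h4.2

include h0 hc hcn hδ hN h2 in
theorem chi_Rh (ω : Om (pe δ N)) {p : ℕ} (hp : p ∈ N.erase 2) :
    chi (Rh ω) p = jacobiSym 5 p * chi ω p := by
  obtain ⟨v, rfl⟩ := cl_surj ω
  have hp' := Finset.mem_of_mem_erase hp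
  have hp2 := Finset.ne_of_mem_erase hp
  obtain ⟨hp1, hp3, hp5⟩ := hN p hp'
  rw [Rh_cl, chi_cl hδ hN h2 hcn _ hp, chi_cl hδ hN h2 hcn _ hp]
  have h4 := hc 5 (Or.inr rfl) p hp1 hp2 hp3 hp5 (ph 5 p) (ph_spec h0 (Or.inr rfl) hp1 hp2 hp5)
    jj v.1 (rv v.1) (by
      rw [nr_jj]
      intro h
      have h6 : p ∣ 5 := by exact_mod_cast h
      exact hp5 ((Nat.prime_dvd_prime_iff_eq hp1 Nat.prime_five).1 h6))
    (by
      rw [v.bl]
      exact_mod_cast (dvd_pe hδ hN hp1).2 hp')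
    (not_dvd hδ hN v.bl hp) (by rw [jj_mul, cj5_pv])
  rw [nr_jj] at h4
  exact h4

include h0 hcn hδ hN h2 in
theorem chi_Nu (ω : Om (pe δ N)) {p : ℕ} (hp : p ∈ N.erase 2) :
    chi (Nu ω) p = jacobiSym (-1) p * chi ω p := by
  obtain ⟨v, rfl⟩ := cl_surj ω
  have hp' := Finset.mem_of_mem_erase hp
  have hp2 := Finset.ne_of_mem_erase hp
  obtain ⟨hp1, hp3, hp5⟩ := hN p hp'
  have : NeZero p := ⟨hp1.ne_zero⟩
  have : Fact p.Prime := ⟨hp1⟩
  rw [Nu_cl, chi_cl hδ hN h2 hcn _ hp, chi_cl hδ hN h2 hcn _ hp]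
  have h4 := (ph_spec h0 (Or.inr rfl : (5 : ℕ) = 3 ∨ (5 : ℕ) = 5) hp1 hp2 hp5).smul (-1) (rd p v.1)
    (neg_ne_zero.2 one_ne_zero)
  have h5 : ((-1 : ZMod p) • rd p v.1 : Fin 3 → ZMod p) = rd p (ngn v).1 := by
    funext i
    change (-1 : ZMod p) * ((v.1 i : ℤ) : ZMod p) = ((-v.1 i : ℤ) : ZMod p)
    push_cast
    ring
  have h6 : lz p (-1) = jacobiSym (-1) p := by
    rw [← lz_int p (-1)]
    push_cast
    rfl
  rw [h5, h6] at h4
  exact h4

include h0 hcn hδ hN h2 in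
theorem chi_pm (ω : Om (pe δ N)) {p : ℕ} (hp : p ∈ N) : chi ω p = 1 ∨ chi ω p = -1 := by
  obtain ⟨v, rfl⟩ := cl_surj ω
  by_cases hp2 : p = 2
  · rw [hp2, chi_cl2 hδ hN h2 hcn]
    exact om_pm _ _ _
  · obtain ⟨hp1, hp3, hp5⟩ := hN p hp
    have hpe : p ∈ N.erase 2 := Finset.mem_erase.2 ⟨hp2, hp⟩
    rw [chi_cl hδ hN h2 hcn _ hpe]
    have h1 := rd_ne hδ hN v.bl hpe
    exact (ph_spec h0 (Or.inr rfl : (5 : ℕ) = 3 ∨ (5 : ℕ) = 5) hp1 hp2 hp5).pm _ h1.2 h1.1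

include hcn hδ hN h2 in
theorem chi_Nu2 (hm : S_OMN) (hJ : Jb δ N) (ω : Om (pe δ N)) : chi (Nu ω) 2 = - chi ω 2 := by
  obtain ⟨v, rfl⟩ := cl_surj ω
  rw [Nu_cl, chi_cl2 hδ hN h2 hcn, chi_cl2 hδ hN h2 hcn]
  exact hm δ hδ 5 (Or.inr rfl) N hN h2 (fun _ => hJ) (fun h => absurd h (by norm_num)) v.1 v.2

include hcn hδ hN h2 in
theorem chi_Rh2 (hm : S_OMN) (hJ : Jb δ N) (ω : Om (pe δ N)) : chi (Rh ω) 2 = - chi ω 2 := by
  obtain ⟨v, rfl⟩ := cl_surj ω
  rw [Rh_cl, chi_cl2 hδ hN h2 hcn, chi_cl2 hδ hN h2 hcn]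
  rw [← hm δ hδ 5 (Or.inr rfl) N hN h2 (fun _ => hJ) (fun h => absurd h (by norm_num)) v.1 v.2]
  exact om_rv _ _

end

end Pool.Agent.XW.Cl

namespace Pool.Agent.XW

open Finset
open Pool.Agent.Z700 (V3 pr)
open Pool.Agent.NH1 (lz rd)
open Pool.Agent.XV (bl vec QA pv ph Ph cpg S_PHI S_CH)
open Pool.Agent.XV.T3.Cl (pr_empty pr_dvd pr_union Rh Nu TT Rh_Rh Nu_Nu Rh_Nu cl_surj cp_eq
  rel_rv_iff rel rv rvn ngn Rh_cl Nu_cl cl)
open Pool.Agent.XW.Cl
open Pool.Agent.XW.H5x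

theorem t_OPSe (h0 : S_PHI) (he : S_EQUe) (hx : S_EXG) (hd : S_DVG) (hc : S_CH)
    (hn : S_CHNe) (hm : S_OMN) (h5 : S_H5e) : S_OPSe := by
  classical
  intro δ hδ N hN h2 hJ T0 hT0
  obtain ⟨d0, hH, hd0⟩ := Hm_of hδ hN h2 hJ
  refine ⟨XV.T3.Cl.Om (pe δ N), Fintype.ofFinite _, Classical.decEq _,
    fun D => TT (pe δ N) (pr D), Rh, Nu, chi, ?_, ?_, ?_, ?_, ?_, ?_, ?_, ?_, ?_⟩
  · intro ω
    dsimp only
    rw [pr_empty]
    exact Cl.TT_one hx hd hH ω
  · intro D hD D' hD' ω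
    dsimp only
    have e1 : pr D = pr (D \ D') * pr (D ∩ D') := by
      rw [← pr_union (Finset.disjoint_sdiff_inter D D'), Finset.sdiff_union_inter]
    have e2 : pr D' = pr (D ∩ D') * pr (D' \ D) := by
      rw [mul_comm, Finset.inter_comm, ← pr_union (Finset.disjoint_sdiff_inter D' D),
        Finset.sdiff_union_inter]
    have e3 : pr (symmDiff D D') = pr (D \ D') * pr (D' \ D) := by
      rw [← pr_union disjoint_sdiff_sdiff]
      rfl
    have d1 : pr D ∣ pr N := pr_dvd hD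
    have d2 : pr D' ∣ pr N := pr_dvd hD'
    have d3 : pr (symmDiff D D') ∣ pr N := by
      apply pr_dvd
      intro p hp
      rw [Finset.mem_symmDiff] at hp
      rcases hp with h | h
      · exact hD h.1
      · exact hD' h.1
    have d4 : pr (D ∩ D') ∣ pr N := pr_dvd (Finset.inter_subset_left.trans hD)
    rw [e3, e1, e2, ← Cl.TT_mul hx hd hH (d := pr (D \ D')) (d' := pr (D ∩ D')) (by
      rw [← e1]; exact d1), ← Cl.TT_mul hx hd hH (d := pr (D ∩ D')) (d' := pr (D' \ D)) (by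
      rw [← e2]; exact d2), Cl.TT_TT hx hd hH d4, Cl.TT_mul hx hd hH (by rw [← e3]; exact d3)]
  · exact fun ω => ⟨Rh_Rh ω, Nu_Nu ω, Rh_Nu ω⟩
  · exact fun D hD ω => ⟨Cl.TT_Rh hx hd hH (pr_dvd hD) ω, Cl.TT_Nu hx hd hH (pr_dvd hD) ω⟩
  · exact fun D hD ω => Cl.chi_TT hδ hN h2 hn hx hd hH hD ω
  · exact fun ω => ⟨fun p hp => ⟨Cl.chi_Rh hδ hN h2 h0 hc hn ω hp, Cl.chi_Nu hδ hN h2 h0 hn ω hp⟩,
      Cl.chi_Rh2 hδ hN h2 hn hm hJ ω, Cl.chi_Nu2 hδ hN h2 hn hm hJ ω,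
      fun p hp => Cl.chi_pm hδ hN h2 h0 hn ω hp⟩
  · intro γ hγ
    have hg2 : (∏ p ∈ N.erase 2, γ p) * (∏ p ∈ N.erase 2, γ p) = 1 := by
      rw [← Finset.prod_mul_distrib]
      refine Finset.prod_eq_one fun p hp => ?_
      rcases hγ p (Finset.mem_of_mem_erase hp) with h | h <;> rw [h] <;> norm_num
    have hgp : (∏ p ∈ N.erase 2, γ p) = 1 ∨ (∏ p ∈ N.erase 2, γ p) = -1 :=
      mul_self_eq_one_iff.1 hg2
    set γ' : ℕ → ℤ := fun p => if p = 2 then γ 2 * ∏ p ∈ N.erase 2, γ p else γ p with hγ'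
    have e1 := he δ hδ 5 (Or.inr rfl) N hN h2 (fun _ => hJ) (fun h => absurd h (by norm_num)) γ' (by
      intro p hp
      rw [hγ']
      dsimp only
      split_ifs
      · rcases hγ 2 h2 with h | h <;> rcases hgp with h' | h' <;> rw [h, h'] <;> norm_num
      · exact hγ p hp)
    have key : ∀ v : V3, (∀ p ∈ N, gm δ 5 N p v = γ' p) ↔
        (∀ p ∈ N, (if p = 2 then om 5 (pe δ N) v else ph 5 p (rd p v)) = γ p) := by
      intro v
      have hPh : (∀ p ∈ N.erase 2, ph 5 p (rd p v) = γ p) →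
          Ph 5 (N.erase 2) v = ∏ p ∈ N.erase 2, γ p := by
        intro h
        unfold Pool.Agent.XV.Ph
        exact Finset.prod_congr rfl h
      constructor
      · intro h
        have h3 : ∀ p ∈ N.erase 2, ph 5 p (rd p v) = γ p := by
          intro p hp
          have h4 := h p (Finset.mem_of_mem_erase hp)
          unfold gm at h4
          rw [hγ'] at h4
          dsimp only at h4
          rwa [if_neg (Finset.ne_of_mem_erase hp), if_neg (Finset.ne_of_mem_erase hp)] at h4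
        intro p hp
        split_ifs with hp2
        · have h4 := h 2 h2
          unfold gm at h4
          rw [hγ'] at h4
          dsimp only at h4
          rw [if_pos rfl, if_pos rfl, hPh h3] at h4
          rw [hp2]
          have h5 : (∏ p ∈ N.erase 2, γ p) ≠ 0 := by
            intro h6
            rw [h6] at hg2
            exact absurd hg2 (by norm_num)
          exact mul_right_cancel₀ h5 h4
        · exact h3 p (Finset.mem_erase.2 ⟨hp2, hp⟩)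
      · intro h
        have h3 : ∀ p ∈ N.erase 2, ph 5 p (rd p v) = γ p := by
          intro p hp
          have h4 := h p (Finset.mem_of_mem_erase hp)
          rwa [if_neg (Finset.ne_of_mem_erase hp)] at h4
        intro p hp
        unfold gm
        rw [hγ']
        dsimp only
        split_ifs with hp2
        · have h4 := h 2 h2
          rw [if_pos rfl] at h4
          rw [h4, hPh h3]
        · exact h3 p (Finset.mem_erase.2 ⟨hp2, hp⟩)
    have e2 : Nat.card {v : V3 // v ∈ vec 5 (pe δ N : ℤ) ∧ ∀ p ∈ N, gm δ 5 N p v = γ' p} =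
        3 * Nat.card {ω : XV.T3.Cl.Om (pe δ N) // ∀ p ∈ N, chi ω p = γ p} := by
      rw [← Cl.card_om' hx hd hH (fun ω => ∀ p ∈ N, chi ω p = γ p)
        (fun v => ∀ p ∈ N, gm δ 5 N p v = γ' p)]
      · exact Nat.subtype_card _ fun x => by simp only [Finset.mem_filter]
      · intro v
        rw [key]
        refine forall_congr' fun p => forall_congr' fun hp => ?_
        split_ifs with hp2
        · rw [hp2, Cl.chi_cl2 hδ hN h2 hn v]
        · rw [Cl.chi_cl hδ hN h2 hn v (Finset.mem_erase.2 ⟨hp2, hp⟩)]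
    rw [e2] at e1
    have e4 : (2 : ℤ) ^ N.card ≠ 0 := by positivity
    apply mul_left_cancel₀ e4
    rw [← hT0, ← e1]
    push_cast
    ring
  · intro D hD hne ω hfix
    obtain ⟨v, rfl⟩ := cl_surj ω
    dsimp only at hfix
    rw [Cl.TT_spec hx hd hH (pr_dvd hD)] at hfix
    refine hne (Cl.no_fix hN hH ?_ hd0 hD v.bl hfix)
    split_ifs
    · exact Finset.erase_subset _ _
    · exact Finset.Subset.refl _
  · intro D hD hgen
    have e1 := h5 δ hδ N hN h2 hJ D hD hgen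
    have hd0 : pr D ≠ 0 := hH.dvd_ne (pr_dvd hD)
    rw [cp_eq (pe δ N) (m := 20 * (pr D : ℤ)) (by positivity)
      (fun v => ∃ Y ∈ vec 5 (20 * (pr D : ℤ)), bl 5 v Y = 0) (fun v _ => Iff.rfl)
      (fun v hv y hy y' hy' k k' =>
        Cl.uniq_rv hx hd hH ((XV.T3.vec_mem (Or.inr rfl)).1 hv) (pr_dvd hD) hy hy' k k')] at e1
    rw [Cl.card_om' hx hd hH (fun ω => Nu (Rh (TT (pe δ N) (pr D) ω)) = ω)] at e1
    · dsimp only
      omega
    · intro v
      rw [← rel_rv_iff (pe_ne hδ hN) v.bl]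
      have e2 : rel (pr D) v.1 (rv (-v.1)) ↔ TT (pe δ N) (pr D) (cl v) = cl (rvn (ngn v)) :=
        (Cl.TT_spec hx hd hH (pr_dvd hD) v (rvn (ngn v))).symm
      rw [e2, ← Rh_cl, ← Nu_cl]
      constructor
      · intro h
        rw [← h, Nu_Nu, Rh_Rh, h]
      · intro h
        rw [h, Rh_Rh, Nu_Nu]

end Pool.Agent.XW
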